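import Pool.Agent.Lib.MP_b7851d_lc.Free.Hub
import Pool.Agent.Lib.MP_b7851d_lc.Star.FW

/-!
# Words of blocks

A state is written with few pattern tokens; every pattern token `t` stands for the block
`φ t :: A t`. A step of the pattern words is a run of the words of blocks.
-/

namespace Pool.Agent.QuadEq.Con

open Pool.Agent.QuadEq.Star Pool.Agent.QuadEq.Star.Asm

variable {α : Type} [DecidableEq α] {iota : α → α}

/-- The partner of a pattern token. -/
def pn (t : ℕ) : ℕ := if t % 2 = 0 then t + 1 else t - 1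

theorem pn_pn (t : ℕ) : pn (pn t) = t := by
  unfold pn
  split_ifs <;> omega

theorem pn_ne (t : ℕ) : pn t ≠ t := by
  unfold pn
  split_ifs <;> omega

/-- The word of blocks. -/
def bl (φ : ℕ → α) (A : ℕ → List α) : List ℕ → List α
  | [] => []
  | t :: l => φ t :: (A t ++ bl φ A l)

omit [DecidableEq α] in
theorem bl_append (φ : ℕ → α) (A : ℕ → List α) (l l' : List ℕ) :
    bl φ A (l ++ l') = bl φ A l ++ bl φ A l' := by
  induction l with
  | nil => rfl
  | cons t l ih => simp [bl, ih]

/-- The state of blocks. -/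
def st (φ : ℕ → α) (A : ℕ → List α) (s : List ℕ × List ℕ) : List α × List α :=
  (bl φ A s.1, bl φ A s.2)

/-- A same-side run. -/
theorem run_same {x : α} {P₂ V : List α} (hV : V ≠ []) : ∀ (Z P₁ : List α),
    OkW iota (x :: (P₁ ++ iota x :: P₂), Z ++ V) →
    PathW iota Z.length (x :: (P₁ ++ iota x :: P₂), Z ++ V)
      (x :: (P₁ ++ (Z ++ iota x :: P₂)), V) := by
  intro Z
  induction Z with
  | nil => intro P₁ _; exact PathW.refl _ _
  | cons z Z ih =>
    intro P₁ h
    have hnd := h.nd
    simp only at hnd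
    have h1 : z ≠ iota x := by
      rintro rfl
      exact (List.nodup_append.mp hnd).2.2 (iota x) (by simp) (iota x) (by simp) rfl
    have h3 : iota x ∉ P₁ := by
      intro h4
      have h5 := ((List.nodup_append.mp hnd).1).of_cons
      exact (List.nodup_append.mp h5).2.2 _ h4 _ (by simp) rfl
    have h2 : iota x ∉ Z ++ V := by
      intro h4
      exact (List.nodup_append.mp hnd).2.2 (iota x) (by simp) (iota x)
        (List.mem_cons_of_mem _ h4) rfl
    have hst : stepW iota true (x :: (P₁ ++ iota x :: P₂), z :: Z ++ V) =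
        some (x :: (P₁ ++ z :: iota x :: P₂), Z ++ V) := by
      have h4 : ¬ (z = iota x ∨ Z ++ V = []) := by
        rintro (h5 | h5)
        · exact h1 h5
        · exact hV (List.append_eq_nil_iff.mp h5).2
      simp only [stepW, cond_true, tW, List.cons_append, if_neg h4]
      rw [insB_split h3, insB_not_mem h2]
    have hok := okW_stepW h hst
    have e1 : x :: (P₁ ++ z :: iota x :: P₂) = x :: ((P₁ ++ [z]) ++ iota x :: P₂) := by simp
    have e2 : x :: ((P₁ ++ [z]) ++ (Z ++ iota x :: P₂)) =
        x :: (P₁ ++ ((z :: Z) ++ iota x :: P₂)) := by simp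
    rw [e1] at hok
    have h6 := ih (P₁ ++ [z]) hok
    rw [e2, ← e1] at h6
    exact PathW.win true hst h6

/-- A T step of the pattern words. -/
theorem blow_T {φ : ℕ → α} {A : ℕ → List α} {s t : List ℕ × List ℕ} (hs : OkW pn s)
    (hφ : ∀ a ∈ s.1 ++ s.2, iota (φ a) = φ (pn a)) (hok : OkW iota (st φ A s))
    (h : tW pn s = some t) :
    PathW iota ((st φ A s).1.length + (st φ A s).2.length) (st φ A s) (st φ A t) := by
  obtain ⟨x, P, y, Q, rfl, -, hQ, h⟩ := tW_cases hs h
  have hx := hφ x (by simp)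
  rcases h with ⟨P₁, P₂, rfl, rfl⟩ | ⟨Q₁, Q₂, rfl, rfl⟩
  · have hQ' : bl φ A Q ≠ [] := by
      cases Q with
      | nil => exact absurd rfl hQ
      | cons a Q => simp [bl]
    have e1 : st φ A (x :: (P₁ ++ pn x :: P₂), y :: Q) =
        (φ x :: ((A x ++ bl φ A P₁) ++ iota (φ x) :: (A (pn x) ++ bl φ A P₂)),
          (φ y :: A y) ++ bl φ A Q) := by
      simp [st, bl, bl_append, hx]
    have e2 : st φ A (x :: (P₁ ++ y :: pn x :: P₂), Q) =
        (φ x :: ((A x ++ bl φ A P₁) ++ ((φ y :: A y) ++ iota (φ x) :: (A (pn x) ++ bl φ A P₂))),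
          bl φ A Q) := by
      simp [st, bl, bl_append, hx]
    rw [e1] at hok
    have h1 := run_same hQ' (φ y :: A y) (A x ++ bl φ A P₁) hok
    rw [e1, e2]
    refine h1.mono ?_
    simp only [List.length_append, List.length_cons]
    omega
  · have e1 : st φ A (x :: P, y :: (Q₁ ++ pn x :: Q₂)) =
        (φ x :: (A x ++ bl φ A P), (φ y :: A y) ++ (bl φ A Q₁ ++ iota (φ x) ::
          (A (pn x) ++ bl φ A Q₂))) := by
      simp [st, bl, bl_append, hx]
    have e2 : st φ A (x :: P, Q₁ ++ y :: pn x :: Q₂) =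
        (φ x :: (A x ++ bl φ A P), bl φ A Q₁ ++ ((φ y :: A y) ++ iota (φ x) ::
          (A (pn x) ++ bl φ A Q₂))) := by
      simp [st, bl, bl_append, hx]
    rw [e1] at hok
    rw [e1, e2]
    exact (Free.rot (φ y :: A y) hok).mono (Nat.zero_le _)

omit [DecidableEq α] in
theorem st_swap (φ : ℕ → α) (A : ℕ → List α) (s : List ℕ × List ℕ) :
    st φ A s.swap = (st φ A s).swap := rfl

/-- A step of the pattern words. -/
theorem blow_step {φ : ℕ → α} {A : ℕ → List α} {s t : List ℕ × List ℕ} {b : Bool}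
    (hs : OkW pn s) (hφ : ∀ a ∈ s.1 ++ s.2, iota (φ a) = φ (pn a)) (hok : OkW iota (st φ A s))
    (h : stepW pn b s = some t) :
    PathW iota ((st φ A s).1.length + (st φ A s).2.length) (st φ A s) (st φ A t) := by
  rcases stepW_induct h with ⟨-, h⟩ | ⟨-, h⟩
  · exact blow_T hs hφ hok h
  · have h1 := (blow_T (A := A) hs.swap (fun a ha => hφ a (by
      simp only [Prod.fst_swap, Prod.snd_swap, List.mem_append] at ha ⊢; tauto))
      (by rw [st_swap]; exact hok.swap) h).swap
    rw [st_swap, st_swap] at h1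
    simp only [Prod.swap_swap, Prod.fst_swap, Prod.snd_swap] at h1
    rwa [Nat.add_comm] at h1

theorem okW_path {k : ℕ} {A B : List α × List α} (h : PathW iota k A B) (hA : OkW iota A) :
    OkW iota B ∧ List.Perm (B.1 ++ B.2) (A.1 ++ A.2) := by
  induction h with
  | refl k A => exact ⟨hA, List.Perm.refl _⟩
  | step b h hs hp ih =>
    obtain ⟨h1, h2⟩ := ih (okW_stepW hA h)
    exact ⟨h1, h2.trans (stepW_perm hA h)⟩
  | win b h hp ih =>
    obtain ⟨h1, h2⟩ := ih (okW_stepW hA h)
    exact ⟨h1, h2.trans (stepW_perm hA h)⟩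

theorem irr_path {k : ℕ} {A B : List α × List α} (h : PathW iota k A B) (hA : OkW iota A)
    (hI : IrrW iota A) : IrrW iota B := by
  induction h with
  | refl k A => exact hI
  | step b h hs hp ih => exact ih (okW_stepW hA h) (hI.stepW hA h)
  | win b h hp ih => exact ih (okW_stepW hA h) (hI.stepW hA h)

theorem length_path {k : ℕ} {A B : List α × List α} (h : PathW iota k A B) (hA : OkW iota A) :
    B.1.length + B.2.length = A.1.length + A.2.length := by
  have := (okW_path h hA).2.length_eq
  simpa using this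

/-- A path of the pattern words. -/
theorem blow {φ : ℕ → α} {A : ℕ → List α} {w : List Bool} {s t : List ℕ × List ℕ}
    (hs : OkW pn s) (hφ : ∀ a ∈ s.1 ++ s.2, iota (φ a) = φ (pn a)) (hok : OkW iota (st φ A s))
    (h : execW pn w s = some t) :
    PathW iota (w.length * ((st φ A s).1.length + (st φ A s).2.length)) (st φ A s)
      (st φ A t) := by
  induction w generalizing s with
  | nil =>
    obtain rfl := Option.some.inj h
    exact PathW.refl _ _
  | cons b w ih =>
    rw [execW] at h
    obtain ⟨s₁, h1, h2⟩ := Option.bind_eq_some_iff.mp h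
    have h3 := blow_step hs hφ hok h1
    obtain ⟨h4, -⟩ := okW_path h3 hok
    have h5 := ih (okW_stepW hs h1) (fun a ha => hφ a ((stepW_perm hs h1).mem_iff.mp ha)) h4 h2
    rw [length_path h3 hok] at h5
    have h6 := h3.trans h5
    refine h6.mono (le_of_eq ?_)
    rw [List.length_cons]
    ring

/-- The conditions on the pattern words. -/
def okb (s : List ℕ × List ℕ) : Bool :=
  (s.1 ++ s.2).all (fun x => (s.1 ++ s.2).contains (pn x)) && decide (s.1 ++ s.2).Nodup

theorem okW_of_okb {s : List ℕ × List ℕ} (h : okb s = true) : OkW pn s := by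
  unfold okb at h
  rw [Bool.and_eq_true, List.all_eq_true, decide_eq_true_eq] at h
  refine ⟨fun x _ => pn_pn x, fun x _ => pn_ne x, fun x hx => ?_, h.2⟩
  have := h.1 x hx
  simpa using this

/-- The value of a pattern token. -/
def v10 {β : Type} (a₀ a₁ a₂ a₃ a₄ a₅ a₆ a₇ a₈ a₉ : β) : ℕ → β
  | 0 => a₀
  | 1 => a₁
  | 2 => a₂
  | 3 => a₃
  | 4 => a₄
  | 5 => a₅
  | 6 => a₆
  | 7 => a₇
  | 8 => a₈
  | _ => a₉

/-- Small patterns. -/
def small (s : List ℕ × List ℕ) : Bool := (s.1 ++ s.2).all (fun x => decide (x < 10))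

/-- A path of the pattern words with at most ten tokens. -/
theorem go {x X w W y Y z Z c C : α} {Ax AX Aw AW Ay AY Az AZ Ac AC : List α}
    (hx : iota x = X) (hX : iota X = x) (hw : iota w = W) (hW : iota W = w) (hy : iota y = Y)
    (hY : iota Y = y) (hz : iota z = Z) (hZ : iota Z = z) (hc : iota c = C) (hC : iota C = c)
    (m : List Bool) (s t : List ℕ × List ℕ) (h1 : execW pn m s = some t) (h2 : okb s = true)
    (h3 : small s = true)
    (hok : OkW iota (st (v10 x X w W y Y z Z c C) (v10 Ax AX Aw AW Ay AY Az AZ Ac AC) s)) :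
    PathW iota (m.length * ((st (v10 x X w W y Y z Z c C)
        (v10 Ax AX Aw AW Ay AY Az AZ Ac AC) s).1.length +
        (st (v10 x X w W y Y z Z c C) (v10 Ax AX Aw AW Ay AY Az AZ Ac AC) s).2.length))
      (st (v10 x X w W y Y z Z c C) (v10 Ax AX Aw AW Ay AY Az AZ Ac AC) s)
      (st (v10 x X w W y Y z Z c C) (v10 Ax AX Aw AW Ay AY Az AZ Ac AC) t) := by
  refine blow (okW_of_okb h2) ?_ hok h1
  intro a ha
  unfold small at h3
  rw [List.all_eq_true] at h3
  have h4 := h3 a ha
  rw [decide_eq_true_eq] at h4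
  interval_cases a
  · exact hx
  · exact hX
  · exact hw
  · exact hW
  · exact hy
  · exact hY
  · exact hz
  · exact hZ
  · exact hc
  · exact hC

end Pool.Agent.QuadEq.Con
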