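import Pool.Agent.Lib.MP_b7851d_lc.Conn.Blow

/-!
# The cases

The tables: `x X Y W | w y z Z` is the state, `c C` is the crossing letter, capitals are partners.
-/

namespace Pool.Agent.QuadEq.Con

open Pool.Agent.QuadEq.Star Pool.Agent.QuadEq.Star.Asm

variable {α : Type} [DecidableEq α] {iota : α → α}

/-- The state of the class. -/
def QS (x X Y W w y z Z : α) (A₀ A₁ A₅ A₃ A₂ A₄ A₆ A₇ : List α) : List α × List α :=
  (x :: (A₀ ++ X :: (A₁ ++ Y :: (A₅ ++ W :: A₃))), w :: (A₂ ++ y :: (A₄ ++ z :: (A₆ ++ Z :: A₇))))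

/-- The forward state. -/
def FS (x X Y W w y z Z : α) (A₀ A₁ A₅ A₃ A₂ A₄ A₆ A₇ : List α) : List α × List α :=
  (x :: (A₀ ++ Y :: (A₅ ++ y :: (A₄ ++ W :: A₃))), w :: (A₂ ++ z :: (A₆ ++ X :: (A₁ ++ Z :: A₇))))

/-- The number of tokens. -/
def sz (A : List α × List α) : ℕ := A.1.length + A.2.length

/-- The partners. -/
structure Rl (iota : α → α) (x X w W y Y z Z c C : α) : Prop where
  /-- x -/
  hx : iota x = X
  /-- X -/
  hX : iota X = x
  /-- w -/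
  hw : iota w = W
  /-- W -/
  hW : iota W = w
  /-- y -/
  hy : iota y = Y
  /-- Y -/
  hY : iota Y = y
  /-- z -/
  hz : iota z = Z
  /-- Z -/
  hZ : iota Z = z
  /-- c -/
  hc : iota c = C
  /-- C -/
  hC : iota C = c

/-- A path of pattern words. -/
theorem go' {x X w W y Y z Z c C : α} (Ax AX Aw AW Ay AY Az AZ Ac AC : List α)
    (rel : Rl iota x X w W y Y z Z c C) {P Q : List α × List α}
    (m : List Bool) (s t : List ℕ × List ℕ) (h1 : execW pn m s = some t) (h2 : okb s = true)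
    (h3 : small s = true) (h4 : m.length ≤ 25)
    (eP : P = st (v10 x X w W y Y z Z c C) (v10 Ax AX Aw AW Ay AY Az AZ Ac AC) s)
    (eQ : Q = st (v10 x X w W y Y z Z c C) (v10 Ax AX Aw AW Ay AY Az AZ Ac AC) t)
    (hok : OkW iota P) : PathW iota (25 * sz P) P Q := by
  subst eP eQ
  refine (go rel.hx rel.hX rel.hw rel.hW rel.hy rel.hY rel.hz rel.hZ rel.hc rel.hC m s t h1 h2 h3
    hok).mono ?_
  exact Nat.mul_le_mul_right _ h4

/-- The state before an inverse same-side run is irreducible. -/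
theorem irr_uneat {p c q : α} {P₁ P₃ P₄ Z V : List α}
    (hok : OkW iota (p :: (P₁ ++ iota p :: (P₃ ++ iota c :: P₄)), (c :: Z) ++ V))
    (hI : IrrW iota (p :: (P₁ ++ ((c :: Z) ++ iota p :: (P₃ ++ iota c :: P₄))), V))
    (hq : q ∈ p :: (P₁ ++ iota p :: P₃)) (hqV : iota q ∈ V) :
    IrrW iota (p :: (P₁ ++ iota p :: (P₃ ++ iota c :: P₄)), (c :: Z) ++ V) := by
  intro U₁ U₂ V₁ V₂ h1 h2 h3 h4 h5
  simp only at h1 h2
  have hnd := hok.nd
  simp only at hnd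
  have hd := (List.nodup_append.mp hnd).2.2
  obtain ⟨v, V₃, rfl⟩ := List.exists_cons_of_ne_nil h4
  have h2' := h2
  rw [List.cons_append, List.cons_append, List.cons.injEq] at h2'
  obtain ⟨rfl, h2'⟩ := h2'
  have hcU : iota c ∈ p :: (P₁ ++ iota p :: (P₃ ++ iota c :: P₄)) := by simp
  have h6 : iota c ∈ U₁ := by
    rcases List.mem_append.mp (h5 c (by simp)) with h7 | h7
    · exact h7
    · exact absurd rfl (hd _ hcU _ (by rw [h2]; exact List.mem_append_left _ h7))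
  have h7 : iota c ∉ U₂ := by
    intro h8
    have h9 := (List.nodup_append.mp hnd).1
    rw [h1] at h9
    exact (List.nodup_append.mp h9).2.2 _ h6 _ h8 rfl
  have h1' : (p :: (P₁ ++ iota p :: P₃)) ++ iota c :: P₄ = U₁ ++ U₂ := by rw [← h1]; simp
  obtain ⟨R, hR1, hR2⟩ := split_at_mem h1' h7
  have h8 : iota q ∈ c :: V₃ := by
    have h9 : q ∈ U₁ := by rw [hR1]; exact List.mem_append_left _ hq
    rcases List.mem_append.mp (h5 q (List.mem_append_left _ h9)) with h10 | h10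
    · exfalso
      have h11 : iota q ∈ p :: (P₁ ++ iota p :: (P₃ ++ iota c :: P₄)) := by
        rw [h1]; exact List.mem_append_left _ h10
      exact hd _ h11 _ (List.mem_append_right _ hqV) rfl
    · exact h10
  have hndV := (List.nodup_append.mp (List.nodup_append.mp hnd).2.1).2.2
  obtain ⟨C, hC1, hC2⟩ : ∃ C, c :: V₃ = (c :: Z) ++ C ∧ V = C ++ V₂ := by
    rcases List.append_eq_append_iff.1 h2 with ⟨C, h9, h10⟩ | ⟨C, h9, h10⟩
    · exact ⟨C, h9, h10⟩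
    · exfalso
      refine hndV (iota q) ?_ (iota q) hqV rfl
      rw [h9]
      exact List.mem_append_left _ h8
  have hC : C ≠ [] := by
    rintro rfl
    rw [List.append_nil] at hC1
    rw [hC1] at h8
    exact hndV (iota q) h8 (iota q) hqV rfl
  exact hI (p :: (P₁ ++ ((c :: Z) ++ iota p :: (P₃ ++ iota c :: R)))) U₂ C V₂
    (by simp only; rw [hR2]; simp) (by simp only; exact hC2) (by simp) hC (by
      intro u hu
      have h9 : u ∈ U₁ ++ c :: V₃ := by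
        rw [hR1, hC1]
        simp only [List.mem_append, List.mem_cons] at hu ⊢
        tauto
      have h10 := h5 u h9
      rw [hR1, hC1] at h10
      simp only [List.mem_append, List.mem_cons] at h10 ⊢
      tauto)

/-- The way to the forward state. -/
theorem toF {x X Y W w y z Z : α} {A₀ A₁ A₅ A₃ A₂ A₄ A₆ A₇ : List α}
    (rel : Rl iota x X w W y Y z Z x X)
    (hok : OkW iota (QS x X Y W w y z Z A₀ A₁ A₅ A₃ A₂ A₄ A₆ A₇)) :
    PathW iota (25 * sz (QS x X Y W w y z Z A₀ A₁ A₅ A₃ A₂ A₄ A₆ A₇))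
      (QS x X Y W w y z Z A₀ A₁ A₅ A₃ A₂ A₄ A₆ A₇)
      (FS x X Y W w y z Z A₀ A₁ A₅ A₃ A₂ A₄ A₆ A₇) :=
  go' A₀ A₁ A₂ A₃ A₄ A₅ A₆ A₇ [] [] rel [true, false, true, false, false, true]
    ([0, 1, 5, 3], [2, 4, 6, 7]) ([0, 5, 4, 3], [2, 6, 1, 7]) (by decide) (by decide) (by decide)
    (by decide) (by simp [QS, st, bl, v10]) (by simp [FS, st, bl, v10]) hok

/-- Direct: `xcXYW|wyzZC`. -/
theorem b1 {x X w W y Y z Z c C : α} {Ax AX Aw AW Ay AY Az AZ Ac AC : List α}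
    (rel : Rl iota x X w W y Y z Z c C)
    (hok : OkW iota (FS x X Y W w y z Z (Ax ++ c :: Ac) AX AY AW Aw Ay Az (AZ ++ C :: AC))) :
    PathW iota (25 * sz (FS x X Y W w y z Z (Ax ++ c :: Ac) AX AY AW Aw Ay Az (AZ ++ C :: AC)))
      (FS x X Y W w y z Z (Ax ++ c :: Ac) AX AY AW Aw Ay Az (AZ ++ C :: AC))
      (QS x X Y W w y z Z (Ax ++ c :: Ac) AX AY AW Aw Ay Az (AZ ++ C :: AC)) :=
  go' Ax AX Aw AW Ay AY Az AZ Ac AC rel [false, true, true, false, false, true, false, true, false, false, false]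
    ([0, 8, 5, 4, 3], [2, 6, 1, 7, 9]) ([0, 8, 1, 5, 3], [2, 4, 6, 7, 9]) (by decide) (by decide)
    (by decide) (by decide) (by simp [FS, st, bl, v10]) (by simp [QS, st, bl, v10]) hok

/-- Direct: `xcXYW|wyzCZ`. -/
theorem b2 {x X w W y Y z Z c C : α} {Ax AX Aw AW Ay AY Az AZ Ac AC : List α}
    (rel : Rl iota x X w W y Y z Z c C)
    (hok : OkW iota (FS x X Y W w y z Z (Ax ++ c :: Ac) AX AY AW Aw Ay (Az ++ C :: AC) AZ)) :
    PathW iota (25 * sz (FS x X Y W w y z Z (Ax ++ c :: Ac) AX AY AW Aw Ay (Az ++ C :: AC) AZ))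
      (FS x X Y W w y z Z (Ax ++ c :: Ac) AX AY AW Aw Ay (Az ++ C :: AC) AZ)
      (QS x X Y W w y z Z (Ax ++ c :: Ac) AX AY AW Aw Ay (Az ++ C :: AC) AZ) :=
  go' Ax AX Aw AW Ay AY Az AZ Ac AC rel [false, true, false, true, false, true, true, false, true, false, false, true]
    ([0, 8, 5, 4, 3], [2, 6, 9, 1, 7]) ([0, 8, 1, 5, 3], [2, 4, 6, 9, 7]) (by decide) (by decide)
    (by decide) (by decide) (by simp [FS, st, bl, v10]) (by simp [QS, st, bl, v10]) hok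

/-- Direct: `xXcYW|wyzZC`. -/
theorem b3 {x X w W y Y z Z c C : α} {Ax AX Aw AW Ay AY Az AZ Ac AC : List α}
    (rel : Rl iota x X w W y Y z Z c C)
    (hok : OkW iota (FS x X Y W w y z Z Ax (AX ++ c :: Ac) AY AW Aw Ay Az (AZ ++ C :: AC))) :
    PathW iota (25 * sz (FS x X Y W w y z Z Ax (AX ++ c :: Ac) AY AW Aw Ay Az (AZ ++ C :: AC)))
      (FS x X Y W w y z Z Ax (AX ++ c :: Ac) AY AW Aw Ay Az (AZ ++ C :: AC))
      (QS x X Y W w y z Z Ax (AX ++ c :: Ac) AY AW Aw Ay Az (AZ ++ C :: AC)) :=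
  go' Ax AX Aw AW Ay AY Az AZ Ac AC rel [false, true, true, false, true, false, false, true, false, true, false, false]
    ([0, 5, 4, 3], [2, 6, 1, 8, 7, 9]) ([0, 1, 8, 5, 3], [2, 4, 6, 7, 9]) (by decide) (by decide)
    (by decide) (by decide) (by simp [FS, st, bl, v10]) (by simp [QS, st, bl, v10]) hok

/-- Direct: `xXcYW|wyzCZ`. -/
theorem b4 {x X w W y Y z Z c C : α} {Ax AX Aw AW Ay AY Az AZ Ac AC : List α}
    (rel : Rl iota x X w W y Y z Z c C)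
    (hok : OkW iota (FS x X Y W w y z Z Ax (AX ++ c :: Ac) AY AW Aw Ay (Az ++ C :: AC) AZ)) :
    PathW iota (25 * sz (FS x X Y W w y z Z Ax (AX ++ c :: Ac) AY AW Aw Ay (Az ++ C :: AC) AZ))
      (FS x X Y W w y z Z Ax (AX ++ c :: Ac) AY AW Aw Ay (Az ++ C :: AC) AZ)
      (QS x X Y W w y z Z Ax (AX ++ c :: Ac) AY AW Aw Ay (Az ++ C :: AC) AZ) :=
  go' Ax AX Aw AW Ay AY Az AZ Ac AC rel [true, true, false, true, true, false, false, true, true, true, false, false, false, true, true, false, false, false]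
    ([0, 5, 4, 3], [2, 6, 9, 1, 8, 7]) ([0, 1, 8, 5, 3], [2, 4, 6, 9, 7]) (by decide) (by decide)
    (by decide) (by decide) (by simp [FS, st, bl, v10]) (by simp [QS, st, bl, v10]) hok

/-- Direct: `xXYcW|wyzZC`. -/
theorem b5 {x X w W y Y z Z c C : α} {Ax AX Aw AW Ay AY Az AZ Ac AC : List α}
    (rel : Rl iota x X w W y Y z Z c C)
    (hok : OkW iota (FS x X Y W w y z Z Ax AX (AY ++ c :: Ac) AW Aw Ay Az (AZ ++ C :: AC))) :
    PathW iota (25 * sz (FS x X Y W w y z Z Ax AX (AY ++ c :: Ac) AW Aw Ay Az (AZ ++ C :: AC)))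
      (FS x X Y W w y z Z Ax AX (AY ++ c :: Ac) AW Aw Ay Az (AZ ++ C :: AC))
      (QS x X Y W w y z Z Ax AX (AY ++ c :: Ac) AW Aw Ay Az (AZ ++ C :: AC)) :=
  go' Ax AX Aw AW Ay AY Az AZ Ac AC rel [false, false, true, true, false, true, false, true, false]
    ([0, 5, 8, 4, 3], [2, 6, 1, 7, 9]) ([0, 1, 5, 8, 3], [2, 4, 6, 7, 9]) (by decide) (by decide)
    (by decide) (by decide) (by simp [FS, st, bl, v10]) (by simp [QS, st, bl, v10]) hok

/-- Direct: `xXYcW|wyzCZ`. -/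
theorem b6 {x X w W y Y z Z c C : α} {Ax AX Aw AW Ay AY Az AZ Ac AC : List α}
    (rel : Rl iota x X w W y Y z Z c C)
    (hok : OkW iota (FS x X Y W w y z Z Ax AX (AY ++ c :: Ac) AW Aw Ay (Az ++ C :: AC) AZ)) :
    PathW iota (25 * sz (FS x X Y W w y z Z Ax AX (AY ++ c :: Ac) AW Aw Ay (Az ++ C :: AC) AZ))
      (FS x X Y W w y z Z Ax AX (AY ++ c :: Ac) AW Aw Ay (Az ++ C :: AC) AZ)
      (QS x X Y W w y z Z Ax AX (AY ++ c :: Ac) AW Aw Ay (Az ++ C :: AC) AZ) :=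
  go' Ax AX Aw AW Ay AY Az AZ Ac AC rel [true, true, false, true, false, false, true, false, false, false, true, true, false, false, true, false, false, false]
    ([0, 5, 8, 4, 3], [2, 6, 9, 1, 7]) ([0, 1, 5, 8, 3], [2, 4, 6, 9, 7]) (by decide) (by decide)
    (by decide) (by decide) (by simp [FS, st, bl, v10]) (by simp [QS, st, bl, v10]) hok

/-- Direct: `xXYW|wcyzCZ`. -/
theorem b7 {x X w W y Y z Z c C : α} {Ax AX Aw AW Ay AY Az AZ Ac AC : List α}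
    (rel : Rl iota x X w W y Y z Z c C)
    (hok : OkW iota (FS x X Y W w y z Z Ax AX AY AW (Aw ++ c :: Ac) Ay (Az ++ C :: AC) AZ)) :
    PathW iota (25 * sz (FS x X Y W w y z Z Ax AX AY AW (Aw ++ c :: Ac) Ay (Az ++ C :: AC) AZ))
      (FS x X Y W w y z Z Ax AX AY AW (Aw ++ c :: Ac) Ay (Az ++ C :: AC) AZ)
      (QS x X Y W w y z Z Ax AX AY AW (Aw ++ c :: Ac) Ay (Az ++ C :: AC) AZ) :=
  go' Ax AX Aw AW Ay AY Az AZ Ac AC rel [true, true, false, true, true, true, false, true, false, false, true, false, true, true, true, true, false, false, false, true, false]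
    ([0, 5, 4, 3], [2, 8, 6, 9, 1, 7]) ([0, 1, 5, 3], [2, 8, 4, 6, 9, 7]) (by decide) (by decide)
    (by decide) (by decide) (by simp [FS, st, bl, v10]) (by simp [QS, st, bl, v10]) hok

/-- Direct: `xXYW|wcyzZC`. -/
theorem b8 {x X w W y Y z Z c C : α} {Ax AX Aw AW Ay AY Az AZ Ac AC : List α}
    (rel : Rl iota x X w W y Y z Z c C)
    (hok : OkW iota (FS x X Y W w y z Z Ax AX AY AW (Aw ++ c :: Ac) Ay Az (AZ ++ C :: AC))) :
    PathW iota (25 * sz (FS x X Y W w y z Z Ax AX AY AW (Aw ++ c :: Ac) Ay Az (AZ ++ C :: AC)))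
      (FS x X Y W w y z Z Ax AX AY AW (Aw ++ c :: Ac) Ay Az (AZ ++ C :: AC))
      (QS x X Y W w y z Z Ax AX AY AW (Aw ++ c :: Ac) Ay Az (AZ ++ C :: AC)) :=
  go' Ax AX Aw AW Ay AY Az AZ Ac AC rel [true, true, false, true, true, false, false, true, true, true, false, false, true, false, true, false, false]
    ([0, 5, 4, 3], [2, 8, 6, 1, 7, 9]) ([0, 1, 5, 3], [2, 8, 4, 6, 7, 9]) (by decide) (by decide)
    (by decide) (by decide) (by simp [FS, st, bl, v10]) (by simp [QS, st, bl, v10]) hok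

/-- Case iA: `xcXYWC|wyzZ`, next `xXYWC|cwyzZ`. -/
theorem iA_F {x X w W y Y z Z c C : α} {Ax AX Aw AW Ay AY Az AZ Ac AC : List α}
    (rel : Rl iota x X w W y Y z Z c C)
    (hok : OkW iota (FS x X Y W w y z Z (Ax ++ c :: Ac) AX AY (AW ++ C :: AC) Aw Ay Az AZ)) :
    PathW iota (25 * sz (FS x X Y W w y z Z (Ax ++ c :: Ac) AX AY (AW ++ C :: AC) Aw Ay Az AZ))
      (FS x X Y W w y z Z (Ax ++ c :: Ac) AX AY (AW ++ C :: AC) Aw Ay Az AZ)
      (FS x X Y C c y z Z Ax AX (AY ++ W :: AW) AC (Ac ++ w :: Aw) Ay Az AZ) :=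
  go' Ax AX Aw AW Ay AY Az AZ Ac AC rel [true, false, false, true, false, true, true, false, true, false]
    ([0, 8, 5, 4, 3, 9], [2, 6, 1, 7]) ([0, 5, 3, 4, 9], [8, 2, 6, 1, 7]) (by decide) (by decide)
    (by decide) (by decide) (by simp [FS, st, bl, v10]) (by simp [FS, st, bl, v10]) hok

theorem iA_S {x X w W y Y z Z c C : α} {Ax AX Aw AW Ay AY Az AZ Ac AC : List α}
    (rel : Rl iota x X w W y Y z Z c C)
    (hok : OkW iota (QS x X Y C c y z Z Ax AX (AY ++ W :: AW) AC (Ac ++ w :: Aw) Ay Az AZ)) :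
    PathW iota (25 * sz (QS x X Y C c y z Z Ax AX (AY ++ W :: AW) AC (Ac ++ w :: Aw) Ay Az AZ))
      (QS x X Y C c y z Z Ax AX (AY ++ W :: AW) AC (Ac ++ w :: Aw) Ay Az AZ)
      (QS x X Y W w y z Z (Ax ++ c :: Ac) AX AY (AW ++ C :: AC) Aw Ay Az AZ) :=
  go' Ax AX Aw AW Ay AY Az AZ Ac AC rel [true]
    ([0, 1, 5, 3, 9], [8, 2, 4, 6, 7]) ([0, 8, 1, 5, 3, 9], [2, 4, 6, 7]) (by decide) (by decide)
    (by decide) (by decide) (by simp [QS, st, bl, v10]) (by simp [QS, st, bl, v10]) hok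

/-- Case iC: `xXYcWC|wyzZ`, next `xWXYC|cwyzZ`. -/
theorem iC_F {x X w W y Y z Z c C : α} {Ax AX Aw AW Ay AY Az AZ Ac AC : List α}
    (rel : Rl iota x X w W y Y z Z c C)
    (hok : OkW iota (FS x X Y W w y z Z Ax AX (AY ++ c :: Ac) (AW ++ C :: AC) Aw Ay Az AZ)) :
    PathW iota (25 * sz (FS x X Y W w y z Z Ax AX (AY ++ c :: Ac) (AW ++ C :: AC) Aw Ay Az AZ))
      (FS x X Y W w y z Z Ax AX (AY ++ c :: Ac) (AW ++ C :: AC) Aw Ay Az AZ)
      (FS x X Y C c y z Z (Ax ++ W :: AW) AX AY AC (Ac ++ w :: Aw) Ay Az AZ) :=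
  go' Ax AX Aw AW Ay AY Az AZ Ac AC rel [true, false, true, false, true, false, true, false, false, false, true, false, false, false, false, true, true, false]
    ([0, 5, 8, 4, 3, 9], [2, 6, 1, 7]) ([0, 3, 5, 4, 9], [8, 2, 6, 1, 7]) (by decide) (by decide)
    (by decide) (by decide) (by simp [FS, st, bl, v10]) (by simp [FS, st, bl, v10]) hok

theorem iC_S {x X w W y Y z Z c C : α} {Ax AX Aw AW Ay AY Az AZ Ac AC : List α}
    (rel : Rl iota x X w W y Y z Z c C)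
    (hok : OkW iota (QS x X Y C c y z Z (Ax ++ W :: AW) AX AY AC (Ac ++ w :: Aw) Ay Az AZ)) :
    PathW iota (25 * sz (QS x X Y C c y z Z (Ax ++ W :: AW) AX AY AC (Ac ++ w :: Aw) Ay Az AZ))
      (QS x X Y C c y z Z (Ax ++ W :: AW) AX AY AC (Ac ++ w :: Aw) Ay Az AZ)
      (QS x X Y W w y z Z Ax AX (AY ++ c :: Ac) (AW ++ C :: AC) Aw Ay Az AZ) :=
  go' Ax AX Aw AW Ay AY Az AZ Ac AC rel [false, false, true, false, false, false]
    ([0, 3, 1, 5, 9], [8, 2, 4, 6, 7]) ([0, 1, 5, 8, 3, 9], [2, 4, 6, 7]) (by decide) (by decide)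
    (by decide) (by decide) (by simp [QS, st, bl, v10]) (by simp [QS, st, bl, v10]) hok

/-- Case iB: `xXcYWC|wyzZ`, next `xXYC|cwWyzZ`. -/
theorem iB_F {x X w W y Y z Z c C : α} {Ax AX Aw AW Ay AY Az AZ Ac AC : List α}
    (rel : Rl iota x X w W y Y z Z c C)
    (hok : OkW iota (FS x X Y W w y z Z Ax (AX ++ c :: Ac) AY (AW ++ C :: AC) Aw Ay Az AZ)) :
    PathW iota (25 * sz (FS x X Y W w y z Z Ax (AX ++ c :: Ac) AY (AW ++ C :: AC) Aw Ay Az AZ))
      (FS x X Y W w y z Z Ax (AX ++ c :: Ac) AY (AW ++ C :: AC) Aw Ay Az AZ)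
      (FS x X Y C c y z Z Ax AX AY AC (Ac ++ w :: (Aw ++ W :: AW)) Ay Az AZ) :=
  go' Ax AX Aw AW Ay AY Az AZ Ac AC rel [true, false, true, false, true, true, false, false, false, true, false, false, true, false]
    ([0, 5, 4, 3, 9], [2, 6, 1, 8, 7]) ([0, 5, 4, 9], [8, 2, 3, 6, 1, 7]) (by decide) (by decide)
    (by decide) (by decide) (by simp [FS, st, bl, v10]) (by simp [FS, st, bl, v10]) hok

theorem iB_S {x X w W y Y z Z c C : α} {Ax AX Aw AW Ay AY Az AZ Ac AC : List α}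
    (rel : Rl iota x X w W y Y z Z c C)
    (hok : OkW iota (QS x X Y C c y z Z Ax AX AY AC (Ac ++ w :: (Aw ++ W :: AW)) Ay Az AZ)) :
    PathW iota (25 * sz (QS x X Y C c y z Z Ax AX AY AC (Ac ++ w :: (Aw ++ W :: AW)) Ay Az AZ))
      (QS x X Y C c y z Z Ax AX AY AC (Ac ++ w :: (Aw ++ W :: AW)) Ay Az AZ)
      (QS x X Y W w y z Z Ax (AX ++ c :: Ac) AY (AW ++ C :: AC) Aw Ay Az AZ) :=
  go' Ax AX Aw AW Ay AY Az AZ Ac AC rel [false, true, false, true, false, true, true, false, false]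
    ([0, 1, 5, 9], [8, 2, 3, 4, 6, 7]) ([0, 1, 8, 5, 3, 9], [2, 4, 6, 7]) (by decide) (by decide)
    (by decide) (by decide) (by simp [QS, st, bl, v10]) (by simp [QS, st, bl, v10]) hok

/-- Case iiA: `xcXYW|wyCzZ`, next `XYxcW|wyCzZ`. -/
theorem iiA_F {x X w W y Y z Z c C : α} {Ax AX Aw AW Ay AY Az AZ Ac AC : List α}
    (rel : Rl iota x X w W y Y z Z c C)
    (hok : OkW iota (FS x X Y W w y z Z (Ax ++ c :: Ac) AX AY AW Aw (Ay ++ C :: AC) Az AZ)) :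
    PathW iota (25 * sz (FS x X Y W w y z Z (Ax ++ c :: Ac) AX AY AW Aw (Ay ++ C :: AC) Az AZ))
      (FS x X Y W w y z Z (Ax ++ c :: Ac) AX AY AW Aw (Ay ++ C :: AC) Az AZ)
      (FS X x c W w C z Z (AX ++ Y :: AY) Ax Ac AW (Aw ++ y :: Ay) AC Az AZ) :=
  go' Ax AX Aw AW Ay AY Az AZ Ac AC rel [true, false, true, false, true, false, false, false, false, true, true, false]
    ([0, 8, 5, 4, 9, 3], [2, 6, 1, 7]) ([1, 5, 8, 9, 3], [2, 4, 6, 0, 7]) (by decide) (by decide)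
    (by decide) (by decide) (by simp [FS, st, bl, v10]) (by simp [FS, st, bl, v10]) hok

theorem iiA_S {x X w W y Y z Z c C : α} {Ax AX Aw AW Ay AY Az AZ Ac AC : List α}
    (rel : Rl iota x X w W y Y z Z c C)
    (hok : OkW iota (QS X x c W w C z Z (AX ++ Y :: AY) Ax Ac AW (Aw ++ y :: Ay) AC Az AZ)) :
    PathW iota (25 * sz (QS X x c W w C z Z (AX ++ Y :: AY) Ax Ac AW (Aw ++ y :: Ay) AC Az AZ))
      (QS X x c W w C z Z (AX ++ Y :: AY) Ax Ac AW (Aw ++ y :: Ay) AC Az AZ)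
      (QS x X Y W w y z Z (Ax ++ c :: Ac) AX AY AW Aw (Ay ++ C :: AC) Az AZ) :=
  go' Ax AX Aw AW Ay AY Az AZ Ac AC rel [false, false]
    ([1, 5, 0, 8, 3], [2, 4, 9, 6, 7]) ([0, 8, 1, 5, 3], [2, 4, 9, 6, 7]) (by decide) (by decide)
    (by decide) (by decide) (by simp [QS, st, bl, v10]) (by simp [QS, st, bl, v10]) hok

theorem iiA_I {x X w W y Y z Z c C : α} {Ax AX Aw AW Ay AY Az AZ Ac AC : List α}
    (rel : Rl iota x X w W y Y z Z c C)
    (hok : OkW iota (QS x X Y W w y z Z (Ax ++ c :: Ac) AX AY AW Aw (Ay ++ C :: AC) Az AZ)) :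
    PathW iota (25 * sz (QS x X Y W w y z Z (Ax ++ c :: Ac) AX AY AW Aw (Ay ++ C :: AC) Az AZ))
      (QS x X Y W w y z Z (Ax ++ c :: Ac) AX AY AW Aw (Ay ++ C :: AC) Az AZ)
      (QS X x c W w C z Z (AX ++ Y :: AY) Ax Ac AW (Aw ++ y :: Ay) AC Az AZ) :=
  go' Ax AX Aw AW Ay AY Az AZ Ac AC rel [false, false]
    ([0, 8, 1, 5, 3], [2, 4, 9, 6, 7]) ([1, 5, 0, 8, 3], [2, 4, 9, 6, 7]) (by decide) (by decide)
    (by decide) (by decide) (by simp [QS, st, bl, v10]) (by simp [QS, st, bl, v10]) hok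

/-- Case iiB: `xXcYW|wyCzZ`, next `xXcYW|wyCzZ`. -/
theorem iiB_F {x X w W y Y z Z c C : α} {Ax AX Aw AW Ay AY Az AZ Ac AC : List α}
    (rel : Rl iota x X w W y Y z Z c C)
    (hok : OkW iota (FS x X Y W w y z Z Ax (AX ++ c :: Ac) AY AW Aw (Ay ++ C :: AC) Az AZ)) :
    PathW iota (25 * sz (FS x X Y W w y z Z Ax (AX ++ c :: Ac) AY AW Aw (Ay ++ C :: AC) Az AZ))
      (FS x X Y W w y z Z Ax (AX ++ c :: Ac) AY AW Aw (Ay ++ C :: AC) Az AZ)
      (FS x X c W w C z Z Ax AX (Ac ++ Y :: AY) AW (Aw ++ y :: Ay) AC Az AZ) :=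
  go' Ax AX Aw AW Ay AY Az AZ Ac AC rel [true, false, true, false, true, true, false, true, false, false, true, false]
    ([0, 5, 4, 9, 3], [2, 6, 1, 8, 7]) ([0, 8, 5, 9, 3], [2, 4, 6, 1, 7]) (by decide) (by decide)
    (by decide) (by decide) (by simp [FS, st, bl, v10]) (by simp [FS, st, bl, v10]) hok

/-- Case iiC: `xXYcW|wyCzZ`, next `xXYcW|wyCzZ`. -/
theorem iiC_F {x X w W y Y z Z c C : α} {Ax AX Aw AW Ay AY Az AZ Ac AC : List α}
    (rel : Rl iota x X w W y Y z Z c C)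
    (hok : OkW iota (FS x X Y W w y z Z Ax AX (AY ++ c :: Ac) AW Aw (Ay ++ C :: AC) Az AZ)) :
    PathW iota (25 * sz (FS x X Y W w y z Z Ax AX (AY ++ c :: Ac) AW Aw (Ay ++ C :: AC) Az AZ))
      (FS x X Y W w y z Z Ax AX (AY ++ c :: Ac) AW Aw (Ay ++ C :: AC) Az AZ)
      (FS x X c W w C z Z Ax (AX ++ Y :: AY) Ac AW (Aw ++ y :: Ay) AC Az AZ) :=
  go' Ax AX Aw AW Ay AY Az AZ Ac AC rel [true, false, false, true, false, true, true, false, false, true, false]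
    ([0, 5, 8, 4, 9, 3], [2, 6, 1, 7]) ([0, 8, 9, 3], [2, 4, 6, 1, 5, 7]) (by decide) (by decide)
    (by decide) (by decide) (by simp [FS, st, bl, v10]) (by simp [FS, st, bl, v10]) hok

/-- Case iv: `xXYWC|wcyzZ`, next `xXWYC|cwyzZ`. -/
theorem iv_F {x X w W y Y z Z c C : α} {Ax AX Aw AW Ay AY Az AZ Ac AC : List α}
    (rel : Rl iota x X w W y Y z Z c C)
    (hok : OkW iota (FS x X Y W w y z Z Ax AX AY (AW ++ C :: AC) (Aw ++ c :: Ac) Ay Az AZ)) :
    PathW iota (25 * sz (FS x X Y W w y z Z Ax AX AY (AW ++ C :: AC) (Aw ++ c :: Ac) Ay Az AZ))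
      (FS x X Y W w y z Z Ax AX AY (AW ++ C :: AC) (Aw ++ c :: Ac) Ay Az AZ)
      (FS x X Y C c y z Z Ax (AX ++ W :: AW) AY AC (Ac ++ w :: Aw) Ay Az AZ) :=
  go' Ax AX Aw AW Ay AY Az AZ Ac AC rel [true, false, false, false, true, false, true]
    ([0, 5, 4, 3, 9], [2, 8, 6, 1, 7]) ([0, 5, 4, 9], [8, 2, 6, 1, 3, 7]) (by decide) (by decide)
    (by decide) (by decide) (by simp [FS, st, bl, v10]) (by simp [FS, st, bl, v10]) hok

theorem iv_S {x X w W y Y z Z c C : α} {Ax AX Aw AW Ay AY Az AZ Ac AC : List α}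
    (rel : Rl iota x X w W y Y z Z c C)
    (hok : OkW iota (QS x X Y C c y z Z Ax (AX ++ W :: AW) AY AC (Ac ++ w :: Aw) Ay Az AZ)) :
    PathW iota (25 * sz (QS x X Y C c y z Z Ax (AX ++ W :: AW) AY AC (Ac ++ w :: Aw) Ay Az AZ))
      (QS x X Y C c y z Z Ax (AX ++ W :: AW) AY AC (Ac ++ w :: Aw) Ay Az AZ)
      (QS x X Y W w y z Z Ax AX AY (AW ++ C :: AC) (Aw ++ c :: Ac) Ay Az AZ) :=
  go' Ax AX Aw AW Ay AY Az AZ Ac AC rel [false, false, false, true, false]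
    ([0, 1, 3, 5, 9], [8, 2, 4, 6, 7]) ([0, 1, 5, 3, 9], [2, 8, 4, 6, 7]) (by decide) (by decide)
    (by decide) (by decide) (by simp [QS, st, bl, v10]) (by simp [QS, st, bl, v10]) hok

theorem iv_I {x X w W y Y z Z c C : α} {Ax AX Aw AW Ay AY Az AZ Ac AC : List α}
    (rel : Rl iota x X w W y Y z Z c C)
    (hok : OkW iota (QS x X Y W w y z Z Ax AX AY (AW ++ C :: AC) (Aw ++ c :: Ac) Ay Az AZ)) :
    PathW iota (25 * sz (QS x X Y W w y z Z Ax AX AY (AW ++ C :: AC) (Aw ++ c :: Ac) Ay Az AZ))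
      (QS x X Y W w y z Z Ax AX AY (AW ++ C :: AC) (Aw ++ c :: Ac) Ay Az AZ)
      (QS x X Y C c y z Z Ax (AX ++ W :: AW) AY AC (Ac ++ w :: Aw) Ay Az AZ) :=
  go' Ax AX Aw AW Ay AY Az AZ Ac AC rel [false, false, true, false]
    ([0, 1, 5, 3, 9], [2, 8, 4, 6, 7]) ([0, 1, 3, 5, 9], [8, 2, 4, 6, 7]) (by decide) (by decide)
    (by decide) (by decide) (by simp [QS, st, bl, v10]) (by simp [QS, st, bl, v10]) hok

/-- Case vi: `xXYW|wcyCzZ`, next `XxcW|wyYCzZ`. -/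
theorem vi_F {x X w W y Y z Z c C : α} {Ax AX Aw AW Ay AY Az AZ Ac AC : List α}
    (rel : Rl iota x X w W y Y z Z c C)
    (hok : OkW iota (FS x X Y W w y z Z Ax AX AY AW (Aw ++ c :: Ac) (Ay ++ C :: AC) Az AZ)) :
    PathW iota (25 * sz (FS x X Y W w y z Z Ax AX AY AW (Aw ++ c :: Ac) (Ay ++ C :: AC) Az AZ))
      (FS x X Y W w y z Z Ax AX AY AW (Aw ++ c :: Ac) (Ay ++ C :: AC) Az AZ)
      (FS X x c W w C z Z AX Ax Ac AW (Aw ++ y :: (Ay ++ Y :: AY)) AC Az AZ) :=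
  go' Ax AX Aw AW Ay AY Az AZ Ac AC rel [true, false, false, true, false, false, true, false, true, false, false, true, false]
    ([0, 5, 4, 9, 3], [2, 8, 6, 1, 7]) ([1, 8, 9, 3], [2, 4, 5, 6, 0, 7]) (by decide) (by decide)
    (by decide) (by decide) (by simp [FS, st, bl, v10]) (by simp [FS, st, bl, v10]) hok

theorem vi_S {x X w W y Y z Z c C : α} {Ax AX Aw AW Ay AY Az AZ Ac AC : List α}
    (rel : Rl iota x X w W y Y z Z c C)
    (hok : OkW iota (QS X x c W w C z Z AX Ax Ac AW (Aw ++ y :: (Ay ++ Y :: AY)) AC Az AZ)) :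
    PathW iota (25 * sz (QS X x c W w C z Z AX Ax Ac AW (Aw ++ y :: (Ay ++ Y :: AY)) AC Az AZ))
      (QS X x c W w C z Z AX Ax Ac AW (Aw ++ y :: (Ay ++ Y :: AY)) AC Az AZ)
      (QS x X Y W w y z Z Ax AX AY AW (Aw ++ c :: Ac) (Ay ++ C :: AC) Az AZ) :=
  go' Ax AX Aw AW Ay AY Az AZ Ac AC rel [false, false, true, true, false, true, false, false]
    ([1, 0, 8, 3], [2, 4, 5, 9, 6, 7]) ([0, 1, 5, 3], [2, 8, 4, 9, 6, 7]) (by decide) (by decide)
    (by decide) (by decide) (by simp [QS, st, bl, v10]) (by simp [QS, st, bl, v10]) hok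

theorem vi_I {x X w W y Y z Z c C : α} {Ax AX Aw AW Ay AY Az AZ Ac AC : List α}
    (rel : Rl iota x X w W y Y z Z c C)
    (hok : OkW iota (QS x X Y W w y z Z Ax AX AY AW (Aw ++ c :: Ac) (Ay ++ C :: AC) Az AZ)) :
    PathW iota (25 * sz (QS x X Y W w y z Z Ax AX AY AW (Aw ++ c :: Ac) (Ay ++ C :: AC) Az AZ))
      (QS x X Y W w y z Z Ax AX AY AW (Aw ++ c :: Ac) (Ay ++ C :: AC) Az AZ)
      (QS X x c W w C z Z AX Ax Ac AW (Aw ++ y :: (Ay ++ Y :: AY)) AC Az AZ) :=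
  go' Ax AX Aw AW Ay AY Az AZ Ac AC rel [false, false, true, false, true, false, false]
    ([0, 1, 5, 3], [2, 8, 4, 9, 6, 7]) ([1, 0, 8, 3], [2, 4, 5, 9, 6, 7]) (by decide) (by decide)
    (by decide) (by decide) (by simp [QS, st, bl, v10]) (by simp [QS, st, bl, v10]) hok

end Pool.Agent.QuadEq.Con
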