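import Pool.Agent.Lib.MP_b7851d_lc.Star.N3c
import Pool.Agent.Lib.MP_b7851d_lc.Star.IotaRes
import Pool.Agent.Lib.MP_b7851d_lc.Star.N3a.Iface
import Pool.Agent.Lib.MP_b7851d_lc.Star.Seg
import Pool.Agent.Lib.MP_b7851d_lc.Star.IrrS
import Pool.Agent.Lib.MP_b7851d_lc.Back.Base

/-!
# The good patterns

A state of the form `u A w' .. | w B u' ..` with a pair in `A` and a token of a bottom pair in `B`
(or the mirror image) is joined in both directions with a D-state.
-/

set_option linter.unusedSectionVars false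
set_option linter.unusedVariables false

namespace Pool.Agent.QuadEq.Star

open N3b

variable {α β : Type*} [DecidableEq α] [DecidableEq β]

/-! ### Patterns from subwords -/

theorem filter_pair {P Q l1 l2 : List α} (hn : (P ++ Q).Nodup) (h1 : l1.Sublist P)
    (h2 : l2.Sublist Q) : P.filter (fun z => decide (z ∈ l1 ++ l2)) = l1 ∧
      Q.filter (fun z => decide (z ∈ l1 ++ l2)) = l2 := by
  rw [List.nodup_append] at hn
  constructor
  · conv_rhs => rw [← filter_mem_sublist h1 hn.1]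
    refine List.filter_congr fun z hz => ?_
    simp only [decide_eq_decide, List.mem_append]
    exact ⟨fun h => h.resolve_right fun h' => hn.2.2 _ hz _ (h2.subset h') rfl, Or.inl⟩
  · conv_rhs => rw [← filter_mem_sublist h2 hn.2.1]
    refine List.filter_congr fun z hz => ?_
    simp only [decide_eq_decide, List.mem_append]
    exact ⟨fun h => h.resolve_left fun h' => hn.2.2 _ (h1.subset h') _ hz rfl, Or.inr⟩

/-- A pattern of the variable words, given by subwords. -/
theorem res_sublist {lam iota : α → α} {e f : α} {lam' iota' : β → β} {e' f' : β} {S : St α}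
    {p : St β} (h : Good lam iota e f S) (h' : Good lam' iota' e' f' p) {ψ : β → α}
    (hio : ∀ b ∈ p.P ++ p.Q, ψ (iota' b) = iota (ψ b)) (hP : (p.P.map ψ).Sublist S.P)
    (hQ : (p.Q.map ψ).Sublist S.Q) (hx : S.P.head? = (p.P.map ψ).head?)
    (hy : S.Q.head? = (p.Q.map ψ).head?) :
    ∃ (A : α → Bool) (φ : β → α), Cl lam e S A ∧ Rel lam' lam p φ ∧ φ e' = e ∧ φ f' = f ∧
      S.res A = p.map φ := by
  have hn : ((p.P ++ p.Q).map ψ).Nodup := by
    rw [List.map_append]
    exact (hP.append hQ).nodup h.ok.nd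
  obtain ⟨f1, f2⟩ := filter_pair h.ok.nd hP hQ
  refine res_iota h h' (ψ := ψ) (fun a ha b hb => List.inj_on_of_nodup_map hn ha hb) hio
    f1.symm f2.symm (fun x h1 => ?_) (fun y h1 => ?_)
  · rw [hx] at h1
    rw [decide_eq_true_eq]
    exact List.mem_append_left _ (List.mem_of_head? h1)
  · rw [hy] at h1
    rw [decide_eq_true_eq]
    exact List.mem_append_right _ (List.mem_of_head? h1)

/-- A criterion for finite states. -/
theorem compat_of {lam iota : ℕ → ℕ} {p : St ℕ}
    (h1 : ∀ b ∈ p.P ++ p.Q, ∀ c ∈ p.P ++ p.Q, b ≠ p.m → b ≠ lam p.m →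
      (nx p.P b = some c ∨ nx p.Q b = some c) →
      (nx p.P (lam b) = some (iota c) ∨ nx p.Q (lam b) = some (iota c)))
    (h2 : ∃ x ∈ p.P ++ p.Q, p.P.head? = some x ∧ (nx p.P p.m = some (iota x) ∨
      nx p.Q p.m = some (iota x)))
    (h3 : ∃ y ∈ p.P ++ p.Q, p.Q.head? = some y ∧ (nx p.P (lam p.m) = some (iota y) ∨
      nx p.Q (lam p.m) = some (iota y))) : Compat lam iota p := by
  refine ⟨fun b c hb hb' h => ?_, ?_, ?_⟩
  · exact h1 b h.mem.1 c h.mem.2 hb hb' h
  · obtain ⟨x, -, hx, hx'⟩ := h2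
    exact ⟨x, hx, hx'⟩
  · obtain ⟨y, -, hy, hy'⟩ := h3
    exact ⟨y, hy, hy'⟩

theorem okW_of {iota : ℕ → ℕ} {A : List ℕ × List ℕ} (h : (∀ x ∈ A.1 ++ A.2, iota (iota x) = x) ∧
    (∀ x ∈ A.1 ++ A.2, iota x ≠ x) ∧ (∀ x ∈ A.1 ++ A.2, iota x ∈ A.1 ++ A.2) ∧
    (A.1 ++ A.2).Nodup) : OkW iota A := ⟨h.1, h.2.1, h.2.2.1, h.2.2.2⟩

theorem ds_of {d : St ℕ} (hok : Ok lamN 0 1 d) (hd : isDN d = true) : DS lamN 0 1 d := by
  obtain ⟨A, B, hA, hB, ⟨x, hx, hx'⟩, z, hz, hz'⟩ := isDN_spec hd
  exact ⟨hok, ⟨A, hA⟩, ⟨B, hB⟩, ⟨x, by rw [hA]; simp [hx], by rw [hA]; simp [hx']⟩,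
    ⟨z, by rw [hB]; simp [hz], by rw [hB]; simp [hz']⟩⟩

/-! ### The two words -/

/-- The partner map of the first word. -/
def io1 (n : ℕ) : ℕ := [4, 2, 1, 6, 0, 7, 3, 5].getD n 0

/-- The word `u x x' w' | w y y' u'`. -/
def g1a : St ℕ := ⟨[2, 3, 6, 0], [4, 5, 7, 1], 7⟩

/-- The partner map of the second word. -/
def io2 (n : ℕ) : ℕ := [4, 7, 5, 6, 0, 2, 3, 1].getD n 0

/-- The word `u x x' w' | w y u' y'`. -/
def g1b : St ℕ := ⟨[2, 3, 6, 0], [4, 7, 5, 1], 7⟩

theorem good_g1a : Good lamN io1 0 1 g1a :=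
  ⟨by decide, okW_of (by decide), compat_of (by decide) (by decide) (by decide)⟩

theorem good_g1b : Good lamN io2 0 1 g1b :=
  ⟨by decide, okW_of (by decide), compat_of (by decide) (by decide) (by decide)⟩

/-- The D-state of the second word. -/
def g1d : St ℕ := ⟨[7, 6, 3, 0], [4, 5, 2, 1], 2⟩

theorem g1b_loop : Runs lamN 9 g1b g1d ∧ Runs lamN 9 g1d g1b := by
  have h1 : exec lamN [true, false, true, false] g1b = some g1d := by decide
  have h2 : exec lamN [true, true, false, true, false] g1d = some g1b := by decide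
  exact ⟨(Runs.of_exec h1).mono (by decide), (Runs.of_exec h2).mono (by decide)⟩

/-! ### The theorem -/

variable {lam iota : α → α} {e f : α}

theorem ds_swap {S : St α} (h : DS lam e f S) : DS lam f e (S.swap lam) := by
  obtain ⟨A, hA⟩ := h.top
  obtain ⟨B, hB⟩ := h.bot
  refine ⟨h.ok.swap, ⟨B, ?_⟩, ⟨A, hA⟩, h.bb, h.tt⟩
  show S.Q = B ++ [lam (lam S.m), f]
  rw [h.ok.inv _ h.ok.pm]
  exact hB

theorem exists_first {A : List α} {iota : α → α} (hinv : ∀ x ∈ A, iota (iota x) = x)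
    (hne : ∀ x ∈ A, iota x ≠ x) {x : α} (hx : x ∈ A) (hx' : iota x ∈ A) :
    ∃ z A₁ A₂ A₃, A = A₁ ++ z :: (A₂ ++ iota z :: A₃) := by
  obtain ⟨A₁, A₂, rfl⟩ := List.append_of_mem hx
  rcases List.mem_append.1 hx' with h1 | h1
  · obtain ⟨B₁, B₂, rfl⟩ := List.append_of_mem h1
    refine ⟨iota x, B₁, B₂, A₂, ?_⟩
    rw [hinv x hx]
    simp
  · rcases List.mem_cons.1 h1 with h1 | h1
    · exact absurd h1 (hne x hx)
    · obtain ⟨B₁, B₂, rfl⟩ := List.append_of_mem h1
      exact ⟨x, A₁, B₁, B₂, rfl⟩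

theorem hub_aux {S : St α} (h : Good lam iota e f S) (hirr : N3b.Irr lam e f S)
    {u w x y : α} {A₁ A₂ A₃ U₂ B V₂ : List α}
    (hP : S.P = u :: (A₁ ++ x :: (A₂ ++ iota x :: A₃) ++ iota w :: U₂))
    (hQ : S.Q = w :: (B ++ iota u :: V₂))
    (hy : (∃ B₁ B₂ B₃, B = B₁ ++ y :: (B₂ ++ iota y :: B₃)) ∨
      (∃ B₁ B₂ C₁ C₂, B = B₁ ++ y :: B₂ ∧ V₂ = C₁ ++ iota y :: C₂)) :
    ∃ D, DS lam e f D ∧ (D.P ++ D.Q).Perm (S.P ++ S.Q) ∧
      Runs lam (9 + 9 * (S.P ++ S.Q).length) S D ∧
      Runs lam (9 + 9 * (S.P ++ S.Q).length) D S := by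
  have hi := h.okW.inv
  simp only at hi
  have hSP : ∀ z, z ∈ S.P → iota (iota z) = z := fun z hz => hi z (List.mem_append_left _ hz)
  have hSQ : ∀ z, z ∈ S.Q → iota (iota z) = z := fun z hz => hi z (List.mem_append_right _ hz)
  have iu : iota (iota u) = u := hSP u (by rw [hP]; simp)
  have iw : iota (iota w) = w := hSQ w (by rw [hQ]; simp)
  have ix : iota (iota x) = x := hSP x (by rw [hP]; simp)
  have sP : [u, x, iota x, iota w].Sublist S.P := by
    rw [hP]
    refine List.Sublist.cons_cons _ ?_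
    have h1 : [x, iota x, iota w].Sublist (x :: (A₂ ++ iota x :: A₃) ++ iota w :: U₂) := by
      refine List.Sublist.cons_cons _ ?_
      have h2 : [iota x, iota w] = [iota x] ++ [iota w] := rfl
      rw [h2]
      refine List.Sublist.append ?_ ?_
      · simp
      · simp
    rw [List.append_assoc]
    exact h1.trans (List.sublist_append_right _ _)
  rcases hy with ⟨B₁, B₂, B₃, hB⟩ | ⟨B₁, B₂, C₁, C₂, hB, hV⟩
  · have iy : iota (iota y) = y := hSQ y (by rw [hQ, hB]; simp)
    have sQ : [w, y, iota y, iota u].Sublist S.Q := by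
      rw [hQ, hB]
      refine List.Sublist.cons_cons _ ?_
      have h1 : [y, iota y, iota u].Sublist (y :: (B₂ ++ iota y :: B₃) ++ iota u :: V₂) := by
        refine List.Sublist.cons_cons _ ?_
        have h2 : [iota y, iota u] = [iota y] ++ [iota u] := rfl
        rw [h2]
        refine List.Sublist.append ?_ ?_
        · simp
        · simp
      rw [List.append_assoc]
      exact h1.trans (List.sublist_append_right _ _)
    obtain ⟨A, φ, r1, r2, r3, r4, r5⟩ := res_sublist h good_g1a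
      (ψ := fun n => [iota w, iota u, u, x, w, y, iota x, iota y].getD n u)
      (by
        intro b hb
        simp only [g1a, List.cons_append, List.nil_append, List.mem_cons, List.not_mem_nil,
          or_false] at hb
        rcases hb with rfl | rfl | rfl | rfl | rfl | rfl | rfl | rfl <;> simp [io1, iu, iw, ix, iy])
      sP sQ (by rw [hP]; rfl) (by rw [hQ]; rfl)
    exact n3b_pat h.ok hirr r1 good_g1a.ok r2 r3 r4 r5 (c := 9)
      (ds_of good_g1a.ok (by decide)) ((show Runs lamN 0 g1a g1a from rfl).mono (by decide))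
      ((show Runs lamN 0 g1a g1a from rfl).mono (by decide))
  · have iy : iota (iota y) = y := hSQ y (by rw [hQ, hB]; simp)
    have sQ : [w, y, iota u, iota y].Sublist S.Q := by
      rw [hQ, hB, hV]
      refine List.Sublist.cons_cons _ ?_
      have h1 : [y, iota u, iota y].Sublist (y :: B₂ ++ iota u :: (C₁ ++ iota y :: C₂)) := by
        refine List.Sublist.cons_cons _ ?_
        refine List.Sublist.trans ?_ (List.sublist_append_right _ _)
        refine List.Sublist.cons_cons _ ?_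
        simp
      rw [List.append_assoc]
      exact h1.trans (List.sublist_append_right _ _)
    obtain ⟨A, φ, r1, r2, r3, r4, r5⟩ := res_sublist h good_g1b
      (ψ := fun n => [iota w, iota y, u, x, w, iota u, iota x, y].getD n u)
      (by
        intro b hb
        simp only [g1b, List.cons_append, List.nil_append, List.mem_cons, List.not_mem_nil,
          or_false] at hb
        rcases hb with rfl | rfl | rfl | rfl | rfl | rfl | rfl | rfl <;> simp [io2, iu, iw, ix, iy])
      sP sQ (by rw [hP]; rfl) (by rw [hQ]; rfl)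
    exact n3b_pat h.ok hirr r1 good_g1b.ok r2 r3 r4 r5 (c := 9)
      (ds_of (by decide) (by decide)) g1b_loop.1 g1b_loop.2

/-- The first case of the good patterns. -/
theorem hub_fst {S : St α} (h : Good lam iota e f S) (hirr : N3b.Irr lam e f S)
    {u w : α} {A U₂ B V₂ : List α} (hP : S.P = u :: (A ++ iota w :: U₂))
    (hQ : S.Q = w :: (B ++ iota u :: V₂))
    (hg : ∃ x ∈ A, iota x ∈ A ∧ ∃ y ∈ B, iota y ∈ B ∨ iota y ∈ V₂) :
    ∃ D, DS lam e f D ∧ (D.P ++ D.Q).Perm (S.P ++ S.Q) ∧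
      Runs lam (9 + 9 * (S.P ++ S.Q).length) S D ∧
      Runs lam (9 + 9 * (S.P ++ S.Q).length) D S := by
  obtain ⟨x, hx, hx', y, hy, hy'⟩ := hg
  have hi := h.okW.inv
  have hne := h.okW.ne
  simp only at hi hne
  have mA : ∀ z ∈ A, z ∈ S.P ++ S.Q := fun z hz => List.mem_append_left _ (by rw [hP]; simp [hz])
  have mB : ∀ z ∈ B, z ∈ S.P ++ S.Q := fun z hz => List.mem_append_right _ (by rw [hQ]; simp [hz])
  obtain ⟨x0, A₁, A₂, A₃, hA⟩ := exists_first (fun z hz => hi z (mA z hz))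
    (fun z hz => hne z (mA z hz)) hx hx'
  rw [hA] at hP
  rcases hy' with hy' | hy'
  · obtain ⟨y0, B₁, B₂, B₃, hB⟩ := exists_first (fun z hz => hi z (mB z hz))
      (fun z hz => hne z (mB z hz)) hy hy'
    exact hub_aux h hirr hP hQ (y := y0) (Or.inl ⟨B₁, B₂, B₃, hB⟩)
  · obtain ⟨B₁, B₂, hB⟩ := List.append_of_mem hy
    obtain ⟨C₁, C₂, hC⟩ := List.append_of_mem hy'
    exact hub_aux h hirr hP hQ (y := y) (Or.inr ⟨B₁, B₂, C₁, C₂, hB, hC⟩)

/-- **The good patterns.** An irreducible state with a good pattern is joined in both directions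
with a D-state. -/
theorem hub_of_g1 {S : St α} (h : Good lam iota e f S) (hirr : N3b.Irr lam e f S)
    (hg : Back.G1 iota (S.P, S.Q)) :
    ∃ D, DS lam e f D ∧ (D.P ++ D.Q).Perm (S.P ++ S.Q) ∧
      Runs lam (9 + 9 * (S.P ++ S.Q).length) S D ∧
      Runs lam (9 + 9 * (S.P ++ S.Q).length) D S := by
  obtain ⟨u, w, A, U₂, B, V₂, hS, hg⟩ := hg
  rw [Prod.mk.injEq] at hS
  rcases hg with hg | hg
  · exact hub_fst h hirr hS.1 hS.2 hg
  · obtain ⟨D, h1, h2, h3, h4⟩ := hub_fst h.swap (Irr.swap h.ok hirr) (S := S.swap lam)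
      hS.2 hS.1 hg
    have hl : ((S.swap lam).P ++ (S.swap lam).Q).length = (S.P ++ S.Q).length := by
      show (S.Q ++ S.P).length = _
      rw [List.length_append, List.length_append, Nat.add_comm]
    rw [hl] at h3 h4
    refine ⟨D.swap lam, ds_swap h1, ?_, ?_, ?_⟩
    · exact List.perm_append_comm.trans (h2.trans List.perm_append_comm)
    · have := Runs.swap h.swap.ok h3
      rwa [h.ok.swap_swap] at this
    · have := Runs.swap h1.ok h4
      rwa [h.ok.swap_swap] at this

end Pool.Agent.QuadEq.Star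

namespace Pool.Agent.QuadEq.Star

open N3b

section

variable {α : Type} [DecidableEq α] {lam iota : α → α} {e f : α}

theorem dst_of_ds {S : St α} (h : DS lam e f S) : Dst lam e f S :=
  ⟨h.ok, h.top, h.bot, h.tt, h.bb⟩

/-- A state which is joined in both directions with a good pattern is joined in both directions
with a D-state. -/
theorem con_of_loop {S : St α} {B : List α × List α} {k : ℕ} (h : Good lam iota e f S)
    (hirr : Asm.IrrW iota (S.P, S.Q)) (h1 : RunsW iota k (S.P, S.Q) B)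
    (h2 : RunsW iota k B (S.P, S.Q)) (hg : Back.G1 iota B) :
    ∃ D, Dst lam e f D ∧ Runs lam (k + (9 + 9 * (S.P.length + S.Q.length))) S D ∧
      Runs lam (k + (9 + 9 * (S.P.length + S.Q.length))) D S := by
  obtain ⟨S', hB, hS', h3, h4⟩ := loop_runs h h1 h2
  have hirr' : N3b.Irr lam e f S' := Irr.runs h.ok (Asm.irr_of_good h hirr) h3
  rw [hB] at hg
  obtain ⟨D, h5, -, h6, h7⟩ := hub_of_g1 hS' hirr' hg
  have hl : (S'.P ++ S'.Q).length = S.P.length + S.Q.length := by
    rw [(Runs.perm h.ok h3).length_eq, List.length_append]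
  rw [hl] at h6 h7
  refine ⟨D, dst_of_ds h5, h3.trans h6, ?_⟩
  rw [Nat.add_comm]
  exact h7.trans h4

end

end Pool.Agent.QuadEq.Star
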