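import Pool.Agent.Lib.MP_b7851d_lc.Conn.Cases
import Pool.Agent.Lib.MP_b7851d_lc.Back.Base

/-!
# The way back from the forward state

`claim`: the forward state `FS` of an irreducible state `QS` is joined with `QS`.
-/

namespace Pool.Agent.QuadEq.Con

open Pool.Agent.QuadEq.Star Pool.Agent.QuadEq.Star.Asm

set_option linter.unusedSectionVars false

variable {α : Type} [DecidableEq α] {iota : α → α}

theorem bl_perm {φ : ℕ → α} {A : ℕ → List α} {l l' : List ℕ} (h : List.Perm l l') :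
    List.Perm (bl φ A l) (bl φ A l') := by
  induction h with
  | nil => exact List.Perm.refl _
  | cons x _ ih => exact List.Perm.cons _ (List.Perm.append_left _ ih)
  | swap x y l =>
    simp only [bl]
    have h1 : List.Perm ((φ y :: A y) ++ ((φ x :: A x) ++ bl φ A l))
        ((φ x :: A x) ++ ((φ y :: A y) ++ bl φ A l)) := List.perm_append_comm_assoc _ _ _
    simpa using h1
  | trans _ _ ih1 ih2 => exact ih1.trans ih2

theorem ok_pat (φ : ℕ → α) (A : ℕ → List α) {P Q : List α × List α} (hP : OkW iota P)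
    (s t : List ℕ × List ℕ) (eP : P = st φ A s) (eQ : Q = st φ A t)
    (h : List.Perm (s.1 ++ s.2) (t.1 ++ t.2)) : OkW iota Q ∧ sz Q = sz P := by
  have h1 : List.Perm (Q.1 ++ Q.2) (P.1 ++ P.2) := by
    subst eP eQ
    have h2 := bl_perm (φ := φ) (A := A) h
    rw [bl_append, bl_append] at h2
    exact h2.symm
  refine ⟨hP.of_perm h1, ?_⟩
  have := h1.length_eq
  simpa [sz] using this

theorem Rl.mk' {x X Y W w y z Z c : α} {A₀ A₁ A₅ A₃ A₂ A₄ A₆ A₇ : List α}
    (hx : iota x = X) (hy : iota y = Y) (hw : iota w = W) (hz : iota z = Z)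
    (hok : OkW iota (QS x X Y W w y z Z A₀ A₁ A₅ A₃ A₂ A₄ A₆ A₇))
    (hc : c ∈ (QS x X Y W w y z Z A₀ A₁ A₅ A₃ A₂ A₄ A₆ A₇).1 ++
      (QS x X Y W w y z Z A₀ A₁ A₅ A₃ A₂ A₄ A₆ A₇).2) :
    Rl iota x X w W y Y z Z c (iota c) := by
  have hinv := hok.inv
  refine ⟨hx, ?_, hw, ?_, hy, ?_, hz, ?_, rfl, hinv c hc⟩
  · rw [← hx]; exact hinv x (by simp [QS])
  · rw [← hw]; exact hinv w (by simp [QS])
  · rw [← hy]; exact hinv y (by simp [QS])
  · rw [← hz]; exact hinv z (by simp [QS])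

/-- The crossing letter. -/
theorem cross {x X Y W w y z Z : α} {A₀ A₁ A₅ A₃ A₂ A₄ A₆ A₇ : List α}
    (hx : iota x = X) (hy : iota y = Y) (hw : iota w = W) (hz : iota z = Z)
    (hok : OkW iota (QS x X Y W w y z Z A₀ A₁ A₅ A₃ A₂ A₄ A₆ A₇))
    (hirr : IrrW iota (QS x X Y W w y z Z A₀ A₁ A₅ A₃ A₂ A₄ A₆ A₇)) :
    ∃ d, (d ∈ A₀ ∨ d ∈ A₁ ∨ d ∈ A₅ ∨ d ∈ A₂) ∧
      (iota d ∈ A₃ ∨ iota d ∈ A₄ ∨ iota d ∈ A₆ ∨ iota d ∈ A₇) := by
  by_contra hcon
  have rel := Rl.mk' (c := x) hx hy hw hz hok (by simp [QS])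
  have hinv := hok.inv
  have hmem := hok.mem
  have hnd := hok.nd
  have e1 : (QS x X Y W w y z Z A₀ A₁ A₅ A₃ A₂ A₄ A₆ A₇).1 =
    (x :: (A₀ ++ X :: (A₁ ++ Y :: (A₅ ++ [W])))) ++ A₃ := by simp [QS]
  have e2 : (QS x X Y W w y z Z A₀ A₁ A₅ A₃ A₂ A₄ A₆ A₇).2 =
    (w :: (A₂ ++ [y])) ++ (A₄ ++ z :: (A₆ ++ Z :: A₇)) := by simp [QS]
  rw [e1, e2] at hnd hmem hinv
  have hnd' : (((x :: (A₀ ++ X :: (A₁ ++ Y :: (A₅ ++ [W])))) ++ (w :: (A₂ ++ [y]))) ++
      (A₃ ++ (A₄ ++ z :: (A₆ ++ Z :: A₇)))).Nodup := by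
    refine (List.Perm.nodup_iff ?_).mp hnd
    rw [List.append_assoc, List.append_assoc]
    exact List.Perm.append_left _ (List.perm_append_comm_assoc _ _ _)
  have hd := (List.nodup_append.mp hnd').2.2
  have h0 := hirr _ _ _ _ e1 e2 (by simp) (by simp) (by
    intro u hu
    have hu' : u ∈ ((x :: (A₀ ++ X :: (A₁ ++ Y :: (A₅ ++ [W])))) ++ A₃) ++
        ((w :: (A₂ ++ [y])) ++ (A₄ ++ z :: (A₆ ++ Z :: A₇))) := by
      rw [List.mem_append] at hu
      rcases hu with hu | hu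
      · exact List.mem_append_left _ (List.mem_append_left _ hu)
      · exact List.mem_append_right _ (List.mem_append_left _ hu)
    have h1 := hmem u hu'
    have hz1 : iota u ≠ z := by
      intro h2
      have h3 : u = Z := by rw [← hinv u hu', h2, hz]
      exact hd u hu Z (by simp) h3
    have hz2 : iota u ≠ Z := by
      intro h2
      have h3 : u = z := by rw [← hinv u hu', h2, rel.hZ]
      exact hd u hu z (by simp) h3
    by_contra hnot
    have h4 : iota u ∈ A₃ ∨ iota u ∈ A₄ ∨ iota u ∈ A₆ ∨ iota u ∈ A₇ := by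
      rcases List.mem_append.mp h1 with h | h
      · rcases List.mem_append.mp h with h | h
        · exact absurd (List.mem_append_left _ h) hnot
        · exact Or.inl h
      · rcases List.mem_append.mp h with h | h
        · exact absurd (List.mem_append_right _ h) hnot
        · rcases List.mem_append.mp h with h | h
          · exact Or.inr (Or.inl h)
          · rcases List.mem_cons.mp h with h | h
            · exact absurd h hz1
            · rcases List.mem_append.mp h with h | h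
              · exact Or.inr (Or.inr (Or.inl h))
              · rcases List.mem_cons.mp h with h | h
                · exact absurd h hz2
                · exact Or.inr (Or.inr (Or.inr h))
    simp only [List.mem_append, List.mem_cons, List.not_mem_nil, or_false] at hu
    apply hnot
    rcases hu with (rfl | h | rfl | h | rfl | h | rfl) | (rfl | h | rfl)
    · rw [hx]; simp
    · exact absurd ⟨u, Or.inl h, h4⟩ hcon
    · rw [rel.hX]; simp
    · exact absurd ⟨u, Or.inr (Or.inl h), h4⟩ hcon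
    · rw [rel.hY]; simp
    · exact absurd ⟨u, Or.inr (Or.inr (Or.inl h)), h4⟩ hcon
    · rw [rel.hW]; simp
    · rw [hw]; simp
    · exact absurd ⟨u, Or.inr (Or.inr (Or.inr h)), h4⟩ hcon
    · rw [hy]; simp)
  simp at h0

theorem bound {N m n : ℕ} (h : m < n) : 25 * N + 50 * N * (m + 1) + 25 * N ≤ 50 * N * (n + 1) := by
  have h1 : 50 * N * (m + 1) ≤ 50 * N * n := Nat.mul_le_mul_left _ h
  have h2 : 50 * N * (n + 1) = 50 * N * n + 50 * N := by ring
  omega

theorem bound0 {N n : ℕ} : 25 * N ≤ 50 * N * (n + 1) := by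
  have h2 : 50 * N * (n + 1) = 50 * N * n + 50 * N := by ring
  omega

theorem iA_ok {x X w W y Y z Z c C : α} {Ax AX AY AW Aw Ay Az AZ Ac AC : List α}
    (hok : OkW iota (QS x X Y W w y z Z (Ax ++ c :: Ac) AX AY (AW ++ C :: AC) Aw Ay Az AZ)) :
    OkW iota (QS x X Y C c y z Z Ax AX (AY ++ W :: AW) AC (Ac ++ w :: Aw) Ay Az AZ) ∧
      sz (QS x X Y C c y z Z Ax AX (AY ++ W :: AW) AC (Ac ++ w :: Aw) Ay Az AZ) =
      sz (QS x X Y W w y z Z (Ax ++ c :: Ac) AX AY (AW ++ C :: AC) Aw Ay Az AZ) :=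
  ok_pat (v10 x X w W y Y z Z c C) (v10 Ax AX Aw AW Ay AY Az AZ Ac AC) hok
    ([0, 8, 1, 5, 3, 9], [2, 4, 6, 7]) ([0, 1, 5, 3, 9], [8, 2, 4, 6, 7]) (by simp [QS, st, bl, v10]) (by simp [QS, st, bl, v10]) (by decide)

theorem iB_ok {x X w W y Y z Z c C : α} {Ax AX AY AW Aw Ay Az AZ Ac AC : List α}
    (hok : OkW iota (QS x X Y W w y z Z Ax (AX ++ c :: Ac) AY (AW ++ C :: AC) Aw Ay Az AZ)) :
    OkW iota (QS x X Y C c y z Z Ax AX AY AC (Ac ++ w :: (Aw ++ W :: AW)) Ay Az AZ) ∧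
      sz (QS x X Y C c y z Z Ax AX AY AC (Ac ++ w :: (Aw ++ W :: AW)) Ay Az AZ) =
      sz (QS x X Y W w y z Z Ax (AX ++ c :: Ac) AY (AW ++ C :: AC) Aw Ay Az AZ) :=
  ok_pat (v10 x X w W y Y z Z c C) (v10 Ax AX Aw AW Ay AY Az AZ Ac AC) hok
    ([0, 1, 8, 5, 3, 9], [2, 4, 6, 7]) ([0, 1, 5, 9], [8, 2, 3, 4, 6, 7]) (by simp [QS, st, bl, v10]) (by simp [QS, st, bl, v10]) (by decide)

theorem iC_ok {x X w W y Y z Z c C : α} {Ax AX AY AW Aw Ay Az AZ Ac AC : List α}
    (hok : OkW iota (QS x X Y W w y z Z Ax AX (AY ++ c :: Ac) (AW ++ C :: AC) Aw Ay Az AZ)) :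
    OkW iota (QS x X Y C c y z Z (Ax ++ W :: AW) AX AY AC (Ac ++ w :: Aw) Ay Az AZ) ∧
      sz (QS x X Y C c y z Z (Ax ++ W :: AW) AX AY AC (Ac ++ w :: Aw) Ay Az AZ) =
      sz (QS x X Y W w y z Z Ax AX (AY ++ c :: Ac) (AW ++ C :: AC) Aw Ay Az AZ) :=
  ok_pat (v10 x X w W y Y z Z c C) (v10 Ax AX Aw AW Ay AY Az AZ Ac AC) hok
    ([0, 1, 5, 8, 3, 9], [2, 4, 6, 7]) ([0, 3, 1, 5, 9], [8, 2, 4, 6, 7]) (by simp [QS, st, bl, v10]) (by simp [QS, st, bl, v10]) (by decide)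

theorem iiA_ok {x X w W y Y z Z c C : α} {Ax AX AY AW Aw Ay Az AZ Ac AC : List α}
    (hok : OkW iota (QS x X Y W w y z Z (Ax ++ c :: Ac) AX AY AW Aw (Ay ++ C :: AC) Az AZ)) :
    OkW iota (QS X x c W w C z Z (AX ++ Y :: AY) Ax Ac AW (Aw ++ y :: Ay) AC Az AZ) ∧
      sz (QS X x c W w C z Z (AX ++ Y :: AY) Ax Ac AW (Aw ++ y :: Ay) AC Az AZ) =
      sz (QS x X Y W w y z Z (Ax ++ c :: Ac) AX AY AW Aw (Ay ++ C :: AC) Az AZ) :=
  ok_pat (v10 x X w W y Y z Z c C) (v10 Ax AX Aw AW Ay AY Az AZ Ac AC) hok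
    ([0, 8, 1, 5, 3], [2, 4, 9, 6, 7]) ([1, 5, 0, 8, 3], [2, 4, 9, 6, 7]) (by simp [QS, st, bl, v10]) (by simp [QS, st, bl, v10]) (by decide)

theorem iv_ok {x X w W y Y z Z c C : α} {Ax AX AY AW Aw Ay Az AZ Ac AC : List α}
    (hok : OkW iota (QS x X Y W w y z Z Ax AX AY (AW ++ C :: AC) (Aw ++ c :: Ac) Ay Az AZ)) :
    OkW iota (QS x X Y C c y z Z Ax (AX ++ W :: AW) AY AC (Ac ++ w :: Aw) Ay Az AZ) ∧
      sz (QS x X Y C c y z Z Ax (AX ++ W :: AW) AY AC (Ac ++ w :: Aw) Ay Az AZ) =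
      sz (QS x X Y W w y z Z Ax AX AY (AW ++ C :: AC) (Aw ++ c :: Ac) Ay Az AZ) :=
  ok_pat (v10 x X w W y Y z Z c C) (v10 Ax AX Aw AW Ay AY Az AZ Ac AC) hok
    ([0, 1, 5, 3, 9], [2, 8, 4, 6, 7]) ([0, 1, 3, 5, 9], [8, 2, 4, 6, 7]) (by simp [QS, st, bl, v10]) (by simp [QS, st, bl, v10]) (by decide)

theorem vi_ok {x X w W y Y z Z c C : α} {Ax AX AY AW Aw Ay Az AZ Ac AC : List α}
    (hok : OkW iota (QS x X Y W w y z Z Ax AX AY AW (Aw ++ c :: Ac) (Ay ++ C :: AC) Az AZ)) :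
    OkW iota (QS X x c W w C z Z AX Ax Ac AW (Aw ++ y :: (Ay ++ Y :: AY)) AC Az AZ) ∧
      sz (QS X x c W w C z Z AX Ax Ac AW (Aw ++ y :: (Ay ++ Y :: AY)) AC Az AZ) =
      sz (QS x X Y W w y z Z Ax AX AY AW (Aw ++ c :: Ac) (Ay ++ C :: AC) Az AZ) :=
  ok_pat (v10 x X w W y Y z Z c C) (v10 Ax AX Aw AW Ay AY Az AZ Ac AC) hok
    ([0, 1, 5, 3], [2, 8, 4, 9, 6, 7]) ([1, 0, 8, 3], [2, 4, 5, 9, 6, 7]) (by simp [QS, st, bl, v10]) (by simp [QS, st, bl, v10]) (by decide)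

theorem iA_irr {x X w W y Y z Z c C : α} {Ax AX AY AW Aw Ay Az AZ Ac AC : List α}
    (rel : Rl iota x X w W y Y z Z c C)
    (hok : OkW iota (QS x X Y W w y z Z (Ax ++ c :: Ac) AX AY (AW ++ C :: AC) Aw Ay Az AZ))
    (hI : IrrW iota (QS x X Y W w y z Z (Ax ++ c :: Ac) AX AY (AW ++ C :: AC) Aw Ay Az AZ)) :
    IrrW iota (QS x X Y C c y z Z Ax AX (AY ++ W :: AW) AC (Ac ++ w :: Aw) Ay Az AZ) := by
  have e : QS x X Y C c y z Z Ax AX (AY ++ W :: AW) AC (Ac ++ w :: Aw) Ay Az AZ =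
      (x :: (Ax ++ iota x :: ((AX ++ Y :: (AY ++ W :: AW)) ++ iota c :: AC)),
        (c :: Ac) ++ (w :: (Aw ++ y :: (Ay ++ z :: (Az ++ Z :: AZ))))) := by
    simp [QS, rel.hx, rel.hc]
  have e' : QS x X Y W w y z Z (Ax ++ c :: Ac) AX AY (AW ++ C :: AC) Aw Ay Az AZ =
      (x :: (Ax ++ ((c :: Ac) ++ iota x :: ((AX ++ Y :: (AY ++ W :: AW)) ++ iota c :: AC))),
        w :: (Aw ++ y :: (Ay ++ z :: (Az ++ Z :: AZ)))) := by
    simp [QS, rel.hx, rel.hc]
  have hok2 := (iA_ok (x := x) (X := X) (w := w) (W := W) (y := y) (Y := Y) (z := z) (Z := Z)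
    (c := c) (C := C) hok).1
  rw [e] at hok2 ⊢
  rw [e'] at hI
  exact irr_uneat (q := W) hok2 hI (by simp) (by rw [rel.hW]; simp)

theorem iB_irr {x X w W y Y z Z c C : α} {Ax AX AY AW Aw Ay Az AZ Ac AC : List α}
    (rel : Rl iota x X w W y Y z Z c C)
    (hok : OkW iota (QS x X Y W w y z Z Ax (AX ++ c :: Ac) AY (AW ++ C :: AC) Aw Ay Az AZ))
    (hI : IrrW iota (QS x X Y W w y z Z Ax (AX ++ c :: Ac) AY (AW ++ C :: AC) Aw Ay Az AZ)) :
    IrrW iota (QS x X Y C c y z Z Ax AX AY AC (Ac ++ w :: (Aw ++ W :: AW)) Ay Az AZ) := by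
  have p1 := go' Ax AX Aw AW Ay AY Az AZ Ac AC rel
    (Q := st (v10 x X w W y Y z Z c C) (v10 Ax AX Aw AW Ay AY Az AZ Ac AC) ([1, 8, 5, 0, 3, 9], [2, 4, 6, 7]))
    [false] ([0, 1, 8, 5, 3, 9], [2, 4, 6, 7]) ([1, 8, 5, 0, 3, 9], [2, 4, 6, 7]) (by decide) (by decide) (by decide) (by decide)
    (by simp [QS, st, bl, v10]) rfl hok
  obtain ⟨okr, -⟩ := okW_path p1 hok
  have irr := irr_path p1 hok hI
  have oku := (ok_pat (v10 x X w W y Y z Z c C) (v10 Ax AX Aw AW Ay AY Az AZ Ac AC) okr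
    ([1, 8, 5, 0, 3, 9], [2, 4, 6, 7]) ([1, 0, 3, 9], [8, 5, 2, 4, 6, 7]) rfl rfl (by decide)).1
  have e : st (v10 x X w W y Y z Z c C) (v10 Ax AX Aw AW Ay AY Az AZ Ac AC) ([1, 0, 3, 9], [8, 5, 2, 4, 6, 7]) =
      (X :: (AX ++ iota X :: ((Ax ++ W :: AW) ++ iota c :: AC)),
        (c :: (Ac ++ Y :: AY)) ++ (w :: (Aw ++ y :: (Ay ++ z :: (Az ++ Z :: AZ))))) := by
    simp [st, bl, v10, rel.hX, rel.hc]
  have e' : st (v10 x X w W y Y z Z c C) (v10 Ax AX Aw AW Ay AY Az AZ Ac AC) ([1, 8, 5, 0, 3, 9], [2, 4, 6, 7]) =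
      (X :: (AX ++ ((c :: (Ac ++ Y :: AY)) ++ iota X :: ((Ax ++ W :: AW) ++ iota c :: AC))),
        w :: (Aw ++ y :: (Ay ++ z :: (Az ++ Z :: AZ)))) := by
    simp [st, bl, v10, rel.hX, rel.hc]
  have iru : IrrW iota (st (v10 x X w W y Y z Z c C) (v10 Ax AX Aw AW Ay AY Az AZ Ac AC) ([1, 0, 3, 9], [8, 5, 2, 4, 6, 7])) := by
    have oku' := oku
    rw [e] at oku' ⊢
    rw [e'] at irr
    exact irr_uneat (q := W) oku' irr (by simp) (by rw [rel.hW]; simp)
  have p2 := go' Ax AX Aw AW Ay AY Az AZ Ac AC rel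
    (P := st (v10 x X w W y Y z Z c C) (v10 Ax AX Aw AW Ay AY Az AZ Ac AC) ([1, 0, 3, 9], [8, 5, 2, 4, 6, 7]))
    (Q := QS x X Y C c y z Z Ax AX AY AC (Ac ++ w :: (Aw ++ W :: AW)) Ay Az AZ)
    [false, false, true, false, true, false, false] ([1, 0, 3, 9], [8, 5, 2, 4, 6, 7]) ([0, 1, 5, 9], [8, 2, 3, 4, 6, 7]) (by decide) (by decide) (by decide)
    (by decide) rfl (by simp [QS, st, bl, v10]) oku
  exact irr_path p2 oku iru

theorem iC_irr {x X w W y Y z Z c C : α} {Ax AX AY AW Aw Ay Az AZ Ac AC : List α}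
    (rel : Rl iota x X w W y Y z Z c C)
    (hok : OkW iota (QS x X Y W w y z Z Ax AX (AY ++ c :: Ac) (AW ++ C :: AC) Aw Ay Az AZ))
    (hI : IrrW iota (QS x X Y W w y z Z Ax AX (AY ++ c :: Ac) (AW ++ C :: AC) Aw Ay Az AZ)) :
    IrrW iota (QS x X Y C c y z Z (Ax ++ W :: AW) AX AY AC (Ac ++ w :: Aw) Ay Az AZ) := by
  have p1 := go' Ax AX Aw AW Ay AY Az AZ Ac AC rel
    (Q := st (v10 x X w W y Y z Z c C) (v10 Ax AX Aw AW Ay AY Az AZ Ac AC) ([1, 5, 8, 0, 3, 9], [2, 4, 6, 7]))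
    [false] ([0, 1, 5, 8, 3, 9], [2, 4, 6, 7]) ([1, 5, 8, 0, 3, 9], [2, 4, 6, 7]) (by decide) (by decide) (by decide) (by decide)
    (by simp [QS, st, bl, v10]) rfl hok
  obtain ⟨okr, -⟩ := okW_path p1 hok
  have irr := irr_path p1 hok hI
  have oku := (ok_pat (v10 x X w W y Y z Z c C) (v10 Ax AX Aw AW Ay AY Az AZ Ac AC) okr
    ([1, 5, 8, 0, 3, 9], [2, 4, 6, 7]) ([1, 5, 0, 3, 9], [8, 2, 4, 6, 7]) rfl rfl (by decide)).1
  have e : st (v10 x X w W y Y z Z c C) (v10 Ax AX Aw AW Ay AY Az AZ Ac AC) ([1, 5, 0, 3, 9], [8, 2, 4, 6, 7]) =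
      (X :: ((AX ++ Y :: AY) ++ iota X :: ((Ax ++ W :: AW) ++ iota c :: AC)),
        (c :: Ac) ++ (w :: (Aw ++ y :: (Ay ++ z :: (Az ++ Z :: AZ))))) := by
    simp [st, bl, v10, rel.hX, rel.hc]
  have e' : st (v10 x X w W y Y z Z c C) (v10 Ax AX Aw AW Ay AY Az AZ Ac AC) ([1, 5, 8, 0, 3, 9], [2, 4, 6, 7]) =
      (X :: ((AX ++ Y :: AY) ++ ((c :: Ac) ++ iota X :: ((Ax ++ W :: AW) ++ iota c :: AC))),
        w :: (Aw ++ y :: (Ay ++ z :: (Az ++ Z :: AZ)))) := by
    simp [st, bl, v10, rel.hX, rel.hc]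
  have iru : IrrW iota (st (v10 x X w W y Y z Z c C) (v10 Ax AX Aw AW Ay AY Az AZ Ac AC) ([1, 5, 0, 3, 9], [8, 2, 4, 6, 7])) := by
    have oku' := oku
    rw [e] at oku' ⊢
    rw [e'] at irr
    exact irr_uneat (q := W) oku' irr (by simp) (by rw [rel.hW]; simp)
  have p2 := go' Ax AX Aw AW Ay AY Az AZ Ac AC rel
    (P := st (v10 x X w W y Y z Z c C) (v10 Ax AX Aw AW Ay AY Az AZ Ac AC) ([1, 5, 0, 3, 9], [8, 2, 4, 6, 7]))
    (Q := QS x X Y C c y z Z (Ax ++ W :: AW) AX AY AC (Ac ++ w :: Aw) Ay Az AZ)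
    [false, false] ([1, 5, 0, 3, 9], [8, 2, 4, 6, 7]) ([0, 3, 1, 5, 9], [8, 2, 4, 6, 7]) (by decide) (by decide) (by decide)
    (by decide) rfl (by simp [QS, st, bl, v10]) oku
  exact irr_path p2 oku iru

theorem iiB_e {x X w W y Y z Z c C : α} {Ax AX AY AW Aw Ay Az AZ Ac AC : List α} :
    QS x X c W w C z Z Ax AX (Ac ++ Y :: AY) AW (Aw ++ y :: Ay) AC Az AZ =
      QS x X Y W w y z Z Ax (AX ++ c :: Ac) AY AW Aw (Ay ++ C :: AC) Az AZ := by
  simp [QS]

theorem iiC_e {x X w W y Y z Z c C : α} {Ax AX AY AW Aw Ay Az AZ Ac AC : List α} :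
    QS x X c W w C z Z Ax (AX ++ Y :: AY) Ac AW (Aw ++ y :: Ay) AC Az AZ =
      QS x X Y W w y z Z Ax AX (AY ++ c :: Ac) AW Aw (Ay ++ C :: AC) Az AZ := by
  simp [QS]

/-- **The forward state is joined with the state.** -/
theorem claim : ∀ (n : ℕ) {x X Y W w y z Z : α} {A₀ A₁ A₅ A₃ A₂ A₄ A₆ A₇ : List α},
    iota x = X → iota y = Y → iota w = W → iota z = Z →
    OkW iota (QS x X Y W w y z Z A₀ A₁ A₅ A₃ A₂ A₄ A₆ A₇) →
    IrrW iota (QS x X Y W w y z Z A₀ A₁ A₅ A₃ A₂ A₄ A₆ A₇) →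
    A₃.length + A₄.length + A₆.length + A₇.length ≤ n →
    PathW iota (50 * sz (QS x X Y W w y z Z A₀ A₁ A₅ A₃ A₂ A₄ A₆ A₇) * (n + 1))
      (FS x X Y W w y z Z A₀ A₁ A₅ A₃ A₂ A₄ A₆ A₇)
      (QS x X Y W w y z Z A₀ A₁ A₅ A₃ A₂ A₄ A₆ A₇) := by
  intro n
  induction n using Nat.strong_induction_on with
  | _ n ih =>
  intro x X Y W w y z Z A₀ A₁ A₅ A₃ A₂ A₄ A₆ A₇ hx hy hw hz hok hirr hn
  obtain ⟨d, hd, hD⟩ := cross hx hy hw hz hok hirr
  have hdm : d ∈ (QS x X Y W w y z Z A₀ A₁ A₅ A₃ A₂ A₄ A₆ A₇).1 ++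
      (QS x X Y W w y z Z A₀ A₁ A₅ A₃ A₂ A₄ A₆ A₇).2 := by
    simp only [QS, List.mem_append, List.mem_cons]
    tauto
  have rel := Rl.mk' (c := d) hx hy hw hz hok hdm
  have rel0 := Rl.mk' (c := x) hx hy hw hz hok (by simp [QS])
  rw [hx] at rel0
  have pF := toF rel0 hok
  have okF := (okW_path pF hok).1
  have szF : sz (FS x X Y W w y z Z A₀ A₁ A₅ A₃ A₂ A₄ A₆ A₇) =
      sz (QS x X Y W w y z Z A₀ A₁ A₅ A₃ A₂ A₄ A₆ A₇) := length_path pF hok
  rcases hd with hd | hd | hd | hd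
  · rcases hD with hD | hD | hD | hD
    · obtain ⟨L, R, rfl⟩ := List.append_of_mem hd
      obtain ⟨L', R', rfl⟩ := List.append_of_mem hD
      have q1 := iA_F rel okF
      rw [szF] at q1
      obtain ⟨hok2, hsz⟩ := iA_ok (x := x) (X := X) (w := w) (W := W) (y := y) (Y := Y)
        (z := z) (Z := Z) (c := d) (C := iota d) hok
      have hirr2 := iA_irr rel hok hirr
      have q2 := ih _ (by simp only [List.length_append, List.length_cons] at hn; omega) rel.hx rel.hy rel.hc rel.hz hok2 hirr2 le_rfl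
      have q3 := iA_S rel hok2
      rw [hsz] at q2 q3
      exact ((q1.trans q2).trans q3).mono (bound (by
        simp only [List.length_append, List.length_cons] at hn; omega))
    · obtain ⟨L, R, rfl⟩ := List.append_of_mem hd
      obtain ⟨L', R', rfl⟩ := List.append_of_mem hD
      have q1 := iiA_F rel okF
      rw [szF] at q1
      obtain ⟨hok2, hsz⟩ := iiA_ok (x := x) (X := X) (w := w) (W := W) (y := y) (Y := Y)
        (z := z) (Z := Z) (c := d) (C := iota d) hok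
      have hirr2 := irr_path (iiA_I rel hok) hok hirr
      have q2 := ih _ (by simp only [List.length_append, List.length_cons] at hn; omega) rel.hX rel.hC rel.hw rel.hz hok2 hirr2 le_rfl
      have q3 := iiA_S rel hok2
      rw [hsz] at q2 q3
      exact ((q1.trans q2).trans q3).mono (bound (by
        simp only [List.length_append, List.length_cons] at hn; omega))
    · obtain ⟨L, R, rfl⟩ := List.append_of_mem hd
      obtain ⟨L', R', rfl⟩ := List.append_of_mem hD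
      have q := b2 rel okF
      rw [szF] at q
      exact q.mono bound0
    · obtain ⟨L, R, rfl⟩ := List.append_of_mem hd
      obtain ⟨L', R', rfl⟩ := List.append_of_mem hD
      have q := b1 rel okF
      rw [szF] at q
      exact q.mono bound0
  · rcases hD with hD | hD | hD | hD
    · obtain ⟨L, R, rfl⟩ := List.append_of_mem hd
      obtain ⟨L', R', rfl⟩ := List.append_of_mem hD
      have q1 := iB_F rel okF
      rw [szF] at q1
      obtain ⟨hok2, hsz⟩ := iB_ok (x := x) (X := X) (w := w) (W := W) (y := y) (Y := Y)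
        (z := z) (Z := Z) (c := d) (C := iota d) hok
      have hirr2 := iB_irr rel hok hirr
      have q2 := ih _ (by simp only [List.length_append, List.length_cons] at hn; omega) rel.hx rel.hy rel.hc rel.hz hok2 hirr2 le_rfl
      have q3 := iB_S rel hok2
      rw [hsz] at q2 q3
      exact ((q1.trans q2).trans q3).mono (bound (by
        simp only [List.length_append, List.length_cons] at hn; omega))
    · obtain ⟨L, R, rfl⟩ := List.append_of_mem hd
      obtain ⟨L', R', rfl⟩ := List.append_of_mem hD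
      have q1 := iiB_F rel okF
      rw [szF] at q1
      have e := iiB_e (x := x) (X := X) (w := w) (W := W) (y := y) (Y := Y) (z := z) (Z := Z)
        (c := d) (C := iota d) (Ax := A₀) (AX := L) (AY := A₅) (AW := A₃) (Aw := A₂)
        (Ay := L') (Az := A₆) (AZ := A₇) (Ac := R) (AC := R')
      have hok2 := hok
      have hirr2 := hirr
      rw [← e] at hok2 hirr2
      have q2 := ih _ (by simp only [List.length_append, List.length_cons] at hn; omega) rel.hx rel.hC rel.hw rel.hz hok2 hirr2 le_rfl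
      have q3 := q1.trans q2
      rw [e] at q3
      exact (q3.mono (Nat.le_add_right _ _)).mono (bound (by
        simp only [List.length_append, List.length_cons] at hn; omega))
    · obtain ⟨L, R, rfl⟩ := List.append_of_mem hd
      obtain ⟨L', R', rfl⟩ := List.append_of_mem hD
      have q := b4 rel okF
      rw [szF] at q
      exact q.mono bound0
    · obtain ⟨L, R, rfl⟩ := List.append_of_mem hd
      obtain ⟨L', R', rfl⟩ := List.append_of_mem hD
      have q := b3 rel okF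
      rw [szF] at q
      exact q.mono bound0
  · rcases hD with hD | hD | hD | hD
    · obtain ⟨L, R, rfl⟩ := List.append_of_mem hd
      obtain ⟨L', R', rfl⟩ := List.append_of_mem hD
      have q1 := iC_F rel okF
      rw [szF] at q1
      obtain ⟨hok2, hsz⟩ := iC_ok (x := x) (X := X) (w := w) (W := W) (y := y) (Y := Y)
        (z := z) (Z := Z) (c := d) (C := iota d) hok
      have hirr2 := iC_irr rel hok hirr
      have q2 := ih _ (by simp only [List.length_append, List.length_cons] at hn; omega) rel.hx rel.hy rel.hc rel.hz hok2 hirr2 le_rfl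
      have q3 := iC_S rel hok2
      rw [hsz] at q2 q3
      exact ((q1.trans q2).trans q3).mono (bound (by
        simp only [List.length_append, List.length_cons] at hn; omega))
    · obtain ⟨L, R, rfl⟩ := List.append_of_mem hd
      obtain ⟨L', R', rfl⟩ := List.append_of_mem hD
      have q1 := iiC_F rel okF
      rw [szF] at q1
      have e := iiC_e (x := x) (X := X) (w := w) (W := W) (y := y) (Y := Y) (z := z) (Z := Z)
        (c := d) (C := iota d) (Ax := A₀) (AX := A₁) (AY := L) (AW := A₃) (Aw := A₂)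
        (Ay := L') (Az := A₆) (AZ := A₇) (Ac := R) (AC := R')
      have hok2 := hok
      have hirr2 := hirr
      rw [← e] at hok2 hirr2
      have q2 := ih _ (by simp only [List.length_append, List.length_cons] at hn; omega) rel.hx rel.hC rel.hw rel.hz hok2 hirr2 le_rfl
      have q3 := q1.trans q2
      rw [e] at q3
      exact (q3.mono (Nat.le_add_right _ _)).mono (bound (by
        simp only [List.length_append, List.length_cons] at hn; omega))
    · obtain ⟨L, R, rfl⟩ := List.append_of_mem hd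
      obtain ⟨L', R', rfl⟩ := List.append_of_mem hD
      have q := b6 rel okF
      rw [szF] at q
      exact q.mono bound0
    · obtain ⟨L, R, rfl⟩ := List.append_of_mem hd
      obtain ⟨L', R', rfl⟩ := List.append_of_mem hD
      have q := b5 rel okF
      rw [szF] at q
      exact q.mono bound0
  · rcases hD with hD | hD | hD | hD
    · obtain ⟨L, R, rfl⟩ := List.append_of_mem hd
      obtain ⟨L', R', rfl⟩ := List.append_of_mem hD
      have q1 := iv_F rel okF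
      rw [szF] at q1
      obtain ⟨hok2, hsz⟩ := iv_ok (x := x) (X := X) (w := w) (W := W) (y := y) (Y := Y)
        (z := z) (Z := Z) (c := d) (C := iota d) hok
      have hirr2 := irr_path (iv_I rel hok) hok hirr
      have q2 := ih _ (by simp only [List.length_append, List.length_cons] at hn; omega) rel.hx rel.hy rel.hc rel.hz hok2 hirr2 le_rfl
      have q3 := iv_S rel hok2
      rw [hsz] at q2 q3
      exact ((q1.trans q2).trans q3).mono (bound (by
        simp only [List.length_append, List.length_cons] at hn; omega))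
    · obtain ⟨L, R, rfl⟩ := List.append_of_mem hd
      obtain ⟨L', R', rfl⟩ := List.append_of_mem hD
      have q1 := vi_F rel okF
      rw [szF] at q1
      obtain ⟨hok2, hsz⟩ := vi_ok (x := x) (X := X) (w := w) (W := W) (y := y) (Y := Y)
        (z := z) (Z := Z) (c := d) (C := iota d) hok
      have hirr2 := irr_path (vi_I rel hok) hok hirr
      have q2 := ih _ (by simp only [List.length_append, List.length_cons] at hn; omega) rel.hX rel.hC rel.hw rel.hz hok2 hirr2 le_rfl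
      have q3 := vi_S rel hok2
      rw [hsz] at q2 q3
      exact ((q1.trans q2).trans q3).mono (bound (by
        simp only [List.length_append, List.length_cons] at hn; omega))
    · obtain ⟨L, R, rfl⟩ := List.append_of_mem hd
      obtain ⟨L', R', rfl⟩ := List.append_of_mem hD
      have q := b7 rel okF
      rw [szF] at q
      exact q.mono bound0
    · obtain ⟨L, R, rfl⟩ := List.append_of_mem hd
      obtain ⟨L', R', rfl⟩ := List.append_of_mem hD
      have q := b8 rel okF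
      rw [szF] at q
      exact q.mono bound0

/-- The state is joined with the forward state in both directions. -/
theorem q_both {x X Y W w y z Z : α} {A₀ A₁ A₅ A₃ A₂ A₄ A₆ A₇ : List α}
    (hx : iota x = X) (hy : iota y = Y) (hw : iota w = W) (hz : iota z = Z)
    (hok : OkW iota (QS x X Y W w y z Z A₀ A₁ A₅ A₃ A₂ A₄ A₆ A₇))
    (hirr : IrrW iota (QS x X Y W w y z Z A₀ A₁ A₅ A₃ A₂ A₄ A₆ A₇)) :
    PathW iota (50 * (sz (QS x X Y W w y z Z A₀ A₁ A₅ A₃ A₂ A₄ A₆ A₇) + 1) ^ 2)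
      (QS x X Y W w y z Z A₀ A₁ A₅ A₃ A₂ A₄ A₆ A₇)
      (FS x X Y W w y z Z A₀ A₁ A₅ A₃ A₂ A₄ A₆ A₇) ∧
    PathW iota (50 * (sz (QS x X Y W w y z Z A₀ A₁ A₅ A₃ A₂ A₄ A₆ A₇) + 1) ^ 2)
      (FS x X Y W w y z Z A₀ A₁ A₅ A₃ A₂ A₄ A₆ A₇)
      (QS x X Y W w y z Z A₀ A₁ A₅ A₃ A₂ A₄ A₆ A₇) := by
  have rel0 := Rl.mk' (c := x) hx hy hw hz hok (by simp [QS])
  rw [hx] at rel0
  constructor
  · exact (toF rel0 hok).mono (by nlinarith)
  · have h := claim (A₃.length + A₄.length + A₆.length + A₇.length) hx hy hw hz hok hirr le_rfl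
    refine h.mono ?_
    have h1 : A₃.length + A₄.length + A₆.length + A₇.length ≤
        sz (QS x X Y W w y z Z A₀ A₁ A₅ A₃ A₂ A₄ A₆ A₇) := by
      simp only [sz, QS, List.length_append, List.length_cons]
      omega
    generalize sz (QS x X Y W w y z Z A₀ A₁ A₅ A₃ A₂ A₄ A₆ A₇) = N at h1
    generalize A₃.length + A₄.length + A₆.length + A₇.length = k at h1
    nlinarith

/-- The forward state is a good pattern. -/
theorem fs_g1 {x X Y W w y z Z : α} {A₀ A₁ A₅ A₃ A₂ A₄ A₆ A₇ : List α}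
    (hx : iota x = X) (hy : iota y = Y) (hw : iota w = W) (hz : iota z = Z)
    (hok : OkW iota (QS x X Y W w y z Z A₀ A₁ A₅ A₃ A₂ A₄ A₆ A₇)) :
    Back.G1 iota (FS x X Y W w y z Z A₀ A₁ A₅ A₃ A₂ A₄ A₆ A₇) := by
  have rel0 := Rl.mk' (c := x) hx hy hw hz hok (by simp [QS])
  refine ⟨x, w, A₀ ++ Y :: (A₅ ++ y :: A₄), A₃, A₂ ++ z :: A₆, A₁ ++ Z :: A₇, ?_, Or.inl
    ⟨Y, by simp, by rw [rel0.hY]; simp, z, by simp, Or.inr (by rw [hz]; simp)⟩⟩
  rw [hx, hw]
  simp [FS]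

end Pool.Agent.QuadEq.Con
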